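import Mathlib
import Pool.Prelude.Def_F_458e953d

/-!
Definitions: perfect domination, perfect Roman domination, graph codes and the class of languages
decided in polynomial time with parallel queries to an NP oracle.
-/

namespace Pool.Agent.Work.MP_4489ea_co

open N68a2faeb

section graphs

variable {V : Type} [Fintype V] (G : SimpleGraph V)

/-- `S` is a perfect dominating set: every vertex outside `S` has exactly one neighbour in `S`. -/
def IsPDS (S : Finset V) : Prop := ∀ v, v ∉ S → ∃! u, u ∈ S ∧ G.Adj v u

/-- The perfect domination number. -/
noncomputable def gammaP : ℕ := sInf {k | ∃ S : Finset V, IsPDS G S ∧ S.card = k}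

/-- `f : V → {0, 1, 2}` is a perfect Roman dominating function: every vertex with value `0` has
exactly one neighbour with value `2`. -/
def IsPRDF (f : V → Fin 3) : Prop := ∀ v, f v = 0 → ∃! u, G.Adj v u ∧ f u = 2

/-- The perfect Roman domination number. -/
noncomputable def gammaRP : ℕ := sInf {k | ∃ f : V → Fin 3, IsPRDF G f ∧ ∑ v, (f v : ℕ) = k}

/-- Perfect Roman graphs. -/
def PerfectRoman : Prop := gammaRP G = 2 * gammaP G

/-- Chordal graphs: no induced cycle of length at least four. -/
def Chordal : Prop := ∀ k, 4 ≤ k → IsEmpty (SimpleGraph.cycleGraph k ↪g G)

end graphs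

open Classical in
/-- The adjacency matrix of a graph on `{0, …, n - 1}`, row by row, as a string of `n * n` bits. -/
noncomputable def code {n : ℕ} (G : SimpleGraph (Fin n)) : List Bool :=
  (List.finRange n).flatMap fun i => (List.finRange n).map fun j => decide (G.Adj i j)

open Classical in
/-- The language of codes of perfect Roman graphs. -/
noncomputable def PRLang : DecisionProblem := fun x =>
  decide (∃ (n : ℕ) (G : SimpleGraph (Fin n)), x = code G ∧ PerfectRoman G)

/-- Languages decided in polynomial time with one round of parallel queries to an NP oracle:
`f x` is the list of queries and `g` decides from the input and the list of answers. -/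
def Theta2 : DecisionComplexityClass :=
  {L | ∃ A ∈ NP, ∃ (f : List Bool → List (List Bool)) (g : List Bool × List Bool → Bool),
    IsPolyTime f ∧ IsPolyTime g ∧ ∀ x, L x = g (x, (f x).map A)}

end Pool.Agent.Work.MP_4489ea_co
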