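import Mathlib
import Pool.Agent.Work.MP_4489ea_co.Defs

/-!
Perfect Roman graphs through the cost of vertex sets.
-/

namespace Pool.Agent.Work.MP_4489ea_co

variable {V : Type} [Fintype V] (G : SimpleGraph V)

open Classical in
/-- The cheapest value at `v` of a perfect Roman dominating function whose `2`-set is `S`. -/
noncomputable def cst (S : Finset V) (v : V) : ℕ :=
  if v ∈ S then 2 else if ∃! u, u ∈ S ∧ G.Adj v u then 0 else 1

/-- The weight of the cheapest perfect Roman dominating function whose `2`-set is `S`. -/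
noncomputable def wt (S : Finset V) : ℕ := ∑ v, cst G S v

omit [Fintype V] in
theorem cst_mem {S : Finset V} {v : V} (h : v ∈ S) : cst G S v = 2 := by simp [cst, h]

omit [Fintype V] in
theorem cst_good {S : Finset V} {v : V} (h : v ∉ S) (h' : ∃! u, u ∈ S ∧ G.Adj v u) :
    cst G S v = 0 := by simp only [cst, h, h', if_true, if_false]

omit [Fintype V] in
theorem cst_bad {S : Finset V} {v : V} (h : v ∉ S) (h' : ¬ ∃! u, u ∈ S ∧ G.Adj v u) :
    cst G S v = 1 := by simp only [cst, h, h', if_false]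

omit [Fintype V] in
theorem cst_le (S : Finset V) (v : V) : cst G S v ≤ 2 := by
  unfold cst; split_ifs <;> omega

omit [Fintype V] in
theorem one_le_cst {S : Finset V} {v : V} (h' : ¬ ∃! u, u ∈ S ∧ G.Adj v u) :
    1 ≤ cst G S v := by
  unfold cst; split_ifs <;> omega

theorem gammaRP_le (S : Finset V) : gammaRP G ≤ wt G S := by
  classical
  refine Nat.sInf_le ⟨fun v => ⟨cst G S v, Nat.lt_succ_of_le (cst_le G S v)⟩, ?_, rfl⟩
  intro v hv
  have h2 : ∀ u, (⟨cst G S u, Nat.lt_succ_of_le (cst_le G S u)⟩ : Fin 3) = 2 ↔ u ∈ S := by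
    intro u
    rw [Fin.ext_iff]
    simp only [cst]
    split_ifs <;> simp_all
  have h0 : cst G S v = 0 := congrArg Fin.val hv
  have h1 : ∃! u, u ∈ S ∧ G.Adj v u := by
    by_contra hc
    have := one_le_cst G hc
    omega
  simp only [h2]
  simpa only [and_comm] using h1

theorem exists_wt_le : ∃ S, wt G S ≤ gammaRP G := by
  classical
  have hne : {k | ∃ f : V → Fin 3, IsPRDF G f ∧ ∑ v, (f v : ℕ) = k}.Nonempty :=
    ⟨_, fun _ => 1, fun v hv => absurd hv (show ¬ (1 : Fin 3) = 0 by decide), rfl⟩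
  obtain ⟨f, hf, e⟩ := Nat.sInf_mem hne
  refine ⟨Finset.univ.filter fun v => f v = 2, ?_⟩
  rw [gammaRP, ← e]
  refine Finset.sum_le_sum fun v _ => ?_
  by_cases h2 : f v = 2
  · rw [h2]; exact cst_le _ _ _
  · by_cases h0 : f v = 0
    · rw [cst_good G (by simpa using h2)]
      · omega
      · simpa only [Finset.mem_filter, Finset.mem_univ, true_and, and_comm] using hf v h0
    · have : (f v : ℕ) = 1 := by
        have := (f v).2
        rw [Fin.ext_iff] at h2 h0
        simp at h2 h0
        omega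
      rw [this]
      unfold cst
      rw [if_neg (by simpa using h2)]
      split_ifs <;> omega

theorem wt_pds {S : Finset V} (h : IsPDS G S) : wt G S = 2 * S.card := by
  classical
  have : ∀ v, cst G S v = if v ∈ S then 2 else 0 := by
    intro v
    by_cases hv : v ∈ S
    · simp [cst_mem G hv, hv]
    · simp [cst_good G hv (h v hv), hv]
  simp [wt, this, mul_comm]

omit [Fintype V] in
theorem gammaP_le {S : Finset V} (h : IsPDS G S) : gammaP G ≤ S.card := Nat.sInf_le ⟨S, h, rfl⟩

theorem exists_pds : ∃ S, IsPDS G S ∧ S.card = gammaP G := by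
  have hne : {k | ∃ S : Finset V, IsPDS G S ∧ S.card = k}.Nonempty :=
    ⟨_, Finset.univ, fun v hv => absurd (Finset.mem_univ v) hv, rfl⟩
  exact Nat.sInf_mem hne

theorem pr_iff : PerfectRoman G ↔ ∃ S, IsPDS G S ∧ ∀ S', wt G S ≤ wt G S' := by
  obtain ⟨S0, h0, e0⟩ := exists_pds G
  have h1 := gammaRP_le G S0
  rw [wt_pds G h0, e0] at h1
  constructor
  · intro h
    refine ⟨S0, h0, fun S' => ?_⟩
    have := gammaRP_le G S'
    rw [wt_pds G h0, e0, ← h]
    exact this
  · rintro ⟨S, hS, h⟩
    obtain ⟨S', h'⟩ := exists_wt_le G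
    have h2 := h S'
    rw [wt_pds G hS] at h2
    have := gammaP_le G hS
    unfold PerfectRoman
    omega

theorem wt_le (S : Finset V) : wt G S ≤ 2 * Fintype.card V := by
  have := Finset.sum_le_card_nsmul Finset.univ (cst G S) 2 fun v _ => cst_le G S v
  simpa [wt, mul_comm] using this

section iso

variable {G} {W : Type} [Fintype W] {H : SimpleGraph W}

omit [Fintype V] [Fintype W] in
theorem mem_map_iso (e : G ≃g H) (S : Finset V) (v : V) :
    e.toEquiv v ∈ S.map e.toEquiv.toEmbedding ↔ v ∈ S :=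
  Finset.mem_map' e.toEquiv.toEmbedding

omit [Fintype V] [Fintype W] in
theorem uniq_map (e : G ≃g H) (S : Finset V) (v : V) :
    (∃! u, u ∈ S.map e.toEquiv.toEmbedding ∧ H.Adj (e v) u) ↔ ∃! u, u ∈ S ∧ G.Adj v u := by
  rw [← e.toEquiv.existsUnique_congr_right]
  refine existsUnique_congr fun u => ?_
  exact and_congr (mem_map_iso e S u) e.map_adj_iff

theorem wt_map (e : G ≃g H) (S : Finset V) : wt H (S.map e.toEquiv.toEmbedding) = wt G S := by
  refine (Fintype.sum_equiv e.toEquiv _ _ fun v => ?_).symm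
  have h1 := mem_map_iso e S v
  have h2 := uniq_map e S v
  unfold cst
  classical
  exact if_congr h1.symm rfl (if_congr h2.symm rfl rfl)

theorem pr_of_iso (e : G ≃g H) (h : PerfectRoman G) : PerfectRoman H := by
  rw [pr_iff] at h ⊢
  obtain ⟨S, hS, h⟩ := h
  refine ⟨S.map e.toEquiv.toEmbedding, fun w hw => ?_, fun S' => ?_⟩
  · obtain ⟨v, rfl⟩ := e.toEquiv.surjective w
    exact (uniq_map e S v).2 (hS v fun hv => hw ((mem_map_iso e S v).2 hv))
  · rw [wt_map, ← wt_map e.symm S']
    exact h _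

theorem pr_iso (e : G ≃g H) : PerfectRoman G ↔ PerfectRoman H :=
  ⟨pr_of_iso e, pr_of_iso e.symm⟩

omit [Fintype V] [Fintype W] in
theorem chordal_of_iso (e : G ≃g H) (h : Chordal H) : Chordal G :=
  fun k hk => ⟨fun f => (h k hk).false (e.toEmbedding.comp f)⟩

end iso

end Pool.Agent.Work.MP_4489ea_co
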