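import Mathlib
import Pool.Agent.Lib.Poly.CookLevin
import Pool.Agent.Lib.Cx.NM

/-!
From polynomial-time Turing machines back to the class `PT`.
-/

namespace Pool.Agent.Work.MP_4489ea_co

open Turing Pool.Agent.Lib.Poly Pool.Agent.Lib.Cx

theorem sim_out (tm : FinTM2) (acc : tm.Γ tm.k₁ → Bool) {l : List (tm.Γ tm.k₀)}
    {l' : List (tm.Γ tm.k₁)} {n : ℕ}
    (h : (flip bind tm.step)^[n] (some (initList tm l)) = some (haltList tm l')) (t : ℕ)
    (ht : stepBound tm * n ≤ t) :
    ((simM tm acc).step^[t] (emb tm (initList tm l))).2 = trS tm (haltList tm l').stk := by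
  obtain ⟨j, h1, h2⟩ := sim_run tm acc n h
  obtain ⟨r, rfl⟩ : ∃ r, t = r + j := ⟨t - j, by omega⟩
  rw [Function.iterate_add_apply, h2]
  cases r with
  | zero => exact emb_snd tm _
  | succ r =>
    rw [Function.iterate_succ_apply]
    have : ∃ b, (simM tm acc).step (emb tm (haltList tm l')) =
        (.inr (some b), trS tm (haltList tm l').stk) := by
      simp only [NM.step, simM, Op.apply, Function.update_eq_self, haltList, emb]
      exact ⟨_, rfl⟩
    obtain ⟨b, hb⟩ := this
    rw [hb, NM.iterate_absorbing _ (sim_final tm acc _)]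

theorem exists_NM_out (tm : FinTM2) (out : tm.Γ tm.k₁ → Bool) :
    ∃ (a b d : ℕ) (M : NM (Fin a) (Fin b) (Fin d)) (q0 : Fin a) (k0 k1 : Fin b)
      (ι : tm.Γ tm.k₀ → Fin d) (o : Fin d → Bool) (c : ℕ),
      ∀ (l : List (tm.Γ tm.k₀)) (l' : List (tm.Γ tm.k₁)) (n : ℕ),
        (flip bind tm.step)^[n] (some (initList tm l)) = some (haltList tm l') →
        ∀ t, c * n ≤ t →
          ((M.step^[t] (q0, Function.update (fun _ => []) k0 (l.map ι))).2 k1).map o =
            l'.map out := by
  classical
  have := tm.ΛFin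
  have := tm.σFin
  have := tm.Γk₀Fin
  have := tm.kFin
  let acc : tm.Γ tm.k₁ → Bool := out
  let ST : Finset (TM2.Stmt tm.Γ tm.Λ tm.σ) := Finset.univ.biUnion fun l => TM2.stmts₁ (tm.m l)
  have hST : ∀ q ∈ ST, ∀ q' ∈ TM2.stmts₁ q, q' ∈ ST := by
    intro q hq q' hq'
    simp only [ST, Finset.mem_biUnion, Finset.mem_univ, true_and] at hq ⊢
    obtain ⟨l, hl⟩ := hq
    exact ⟨l, TM2.stmts₁_trans hl hq'⟩
  have hm : ∀ l, tm.m l ∈ ST := fun l => by
    simp only [ST, Finset.mem_biUnion, Finset.mem_univ, true_and]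
    exact ⟨l, TM2.stmts₁_self⟩
  let FQ : Finset (SQ tm) := (ST ×ˢ Finset.univ).disjSum Finset.univ
  let pushed : SQ tm → Finset (SG tm) := fun q =>
    match (simM tm acc).op q none with
    | .push g => {g}
    | _ => ∅
  let FG : Finset (SG tm) := FQ.biUnion pushed ∪ Finset.univ.image (Sigma.mk tm.k₀)
  let eQ := FQ.equivFin
  let eG := FG.equivFin
  let iq : Fin FQ.card → SQ tm := fun i => (eQ.symm i).1
  let ig : Fin FG.card → SG tm := fun i => (eG.symm i).1
  have hq : Function.Injective iq := fun i j e => eQ.symm.injective (Subtype.ext e)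
  have sq : ∀ q ∈ FQ, ∃ i, iq i = q := fun q h => ⟨eQ ⟨q, h⟩, by simp [iq]⟩
  have sg : ∀ g ∈ FG, ∃ i, ig i = g := fun g h => ⟨eG ⟨g, h⟩, by simp [ig]⟩
  have mq : ∀ i, iq i ∈ FQ := fun i => (eQ.symm i).2
  have ml : ∀ q v, Sum.inl (q, v) ∈ FQ ↔ q ∈ ST := by simp [FQ]
  have mr : ∀ o, Sum.inr o ∈ FQ := by simp [FQ]
  have cl1 : ∀ q ∈ FQ, ∀ og, (simM tm acc).nxt q og ∈ FQ := by
    rintro (⟨q, v⟩ | _ | b) h og
    · rw [ml] at h
      cases q with
      | push k f q => exact (ml _ _).2 (hST _ h _ (by simp [TM2.stmts₁, TM2.stmts₁_self]))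
      | peek k f q => exact (ml _ _).2 (hST _ h _ (by simp [TM2.stmts₁, TM2.stmts₁_self]))
      | pop k f q => exact (ml _ _).2 (hST _ h _ (by simp [TM2.stmts₁, TM2.stmts₁_self]))
      | load f q => exact (ml _ _).2 (hST _ h _ (by simp [TM2.stmts₁, TM2.stmts₁_self]))
      | branch f q₁ q₂ =>
        refine (ml _ _).2 (hST _ h _ ?_)
        cases f v <;> simp [TM2.stmts₁, TM2.stmts₁_self]
      | goto f => exact (ml _ _).2 (hm _)
      | halt => exact mr _
    · exact mr _
    · exact mr _
  have cl2 : ∀ q ∈ FQ, ∀ og g, (simM tm acc).op q og = .push g → g ∈ FG := by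
    intro q h og g e
    have e' : (simM tm acc).op q none = .push g := by
      rcases q with ⟨q, v⟩ | _ | b
      · cases q <;> exact e
      · exact e
      · exact e
    refine Finset.mem_union_left _ (Finset.mem_biUnion.2 ⟨q, h, ?_⟩)
    simp only [pushed, e', Finset.mem_singleton]
  obtain ⟨M, -, hM2⟩ := NM.exists_restrict (simM tm acc) iq hq (Fintype.equivFin tm.K) ig
    (fun q og => sq _ (cl1 _ (mq q) og)) (fun q og g e => sg _ (cl2 _ (mq q) og g e))
  obtain ⟨q0, hq0⟩ := sq (.inl (tm.m tm.main, tm.initialState)) ((ml _ _).2 (hm _))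
  have hι : ∀ g : tm.Γ tm.k₀, ∃ i, ig i = ⟨tm.k₀, g⟩ := fun g =>
    sg _ (Finset.mem_union_right _ (Finset.mem_image.2 ⟨g, Finset.mem_univ _, rfl⟩))
  choose ι hι using hι
  have init : ∀ l : List (tm.Γ tm.k₀), emb tm (initList tm l) =
      (iq q0, fun k => (Function.update (fun _ => []) (Fintype.equivFin tm.K tm.k₀) (l.map ι)
        (Fintype.equivFin tm.K k)).map ig) := by
    intro l
    simp only [initList, emb, hq0, Prod.mk.injEq, true_and]
    funext k
    by_cases h : k = tm.k₀
    · subst h
      simp only [trS, Function.update_self, List.map_map, dif_pos]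
      exact List.map_congr_left fun g _ => (hι g).symm
    · rw [Function.update_of_ne (fun e => h ((Fintype.equivFin tm.K).injective e))]
      simp [trS, h]
  refine ⟨_, _, _, M, q0, Fintype.equivFin tm.K tm.k₀, Fintype.equivFin tm.K tm.k₁, ι,
    fun i => ((proj tm tm.k₁ (some (ig i))).map out).getD false, stepBound tm, ?_⟩
  intro l l' n h t ht
  have h1 := sim_out tm acc h t ht
  rw [init, hM2 t (q0, _)] at h1
  have h2 := congrFun h1 tm.k₁
  have h3 : trS tm (haltList tm l').stk tm.k₁ = l'.map (Sigma.mk tm.k₁) := by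
    simp [trS, haltList]
  rw [h3] at h2
  have h4 := congrArg (List.map fun g : SG tm => ((proj tm tm.k₁ (some g)).map out).getD false) h2
  simp only [List.map_map] at h4
  refine h4.trans (List.map_congr_left fun g _ => ?_)
  simp [Pool.Agent.Lib.Cx.proj]

instance encFin (n : ℕ) : Enc (Fin n) :=
  ⟨fun i => enc i.val, fun _ _ h => Fin.ext (Enc.inj h)⟩

instance encOption {α : Type} [Enc α] : Enc (Option α) :=
  ⟨fun o => enc o.toList, fun a b h => by
    have := Enc.inj h
    cases a <;> cases b <;> simp_all⟩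

section
variable {α β : Type} [Enc α] [Enc β]

@[fun_prop] theorem pt_head? {l : α → List β} (hl : PT l) : PT fun x => (l x).head? :=
  (PT.take (PT.const 1) hl).of_enc (fun a => a) (fun _ => rfl) fun a => by
    cases l a <;> rfl

@[fun_prop] theorem pt_finVal {n : ℕ} {f : α → Fin n} (hf : PT f) : PT fun x => (f x).val :=
  hf.of_enc (fun a => a) (fun _ => rfl) fun _ => rfl

end

section machine

variable {a b d : ℕ} (M : NM (Fin a) (Fin b) (Fin d))

def opPop : Op (Fin d) → Bool
  | .pop => true
  | _ => false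

def opPush : Op (Fin d) → List (Fin d)
  | .push g => [g]
  | _ => []

theorem op_apply (o : Op (Fin d)) (l : List (Fin d)) :
    o.apply l = opPush o ++ (bif opPop o then l.tail else l) := by
  cases o <;> rfl

def lstep (c : Fin a × List (List (Fin d))) : Fin a × List (List (Fin d)) :=
  (M.nxt c.1 (c.2.getD (M.stk c.1).val []).head?,
    (List.range b).map fun j => if j = (M.stk c.1).val then
      opPush (M.op c.1 (c.2.getD (M.stk c.1).val []).head?) ++
        (bif opPop (M.op c.1 (c.2.getD (M.stk c.1).val []).head?) then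
          (c.2.getD j []).tail else c.2.getD j [])
      else c.2.getD j [])

def rep (c : Fin a × (Fin b → List (Fin d))) : Fin a × List (List (Fin d)) :=
  (c.1, List.ofFn c.2)

theorem ofFn_getD (S : Fin b → List (Fin d)) (k : Fin b) : (List.ofFn S).getD k.val [] = S k := by
  simp [List.getD_eq_getElem?_getD]

theorem lstep_rep (c : Fin a × (Fin b → List (Fin d))) : lstep M (rep c) = rep (M.step c) := by
  obtain ⟨q, S⟩ := c
  simp only [lstep, rep, NM.step, ofFn_getD, Prod.mk.injEq, true_and]
  refine List.ext_getElem (by simp) fun j h1 h2 => ?_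
  have hj : j < b := by simpa using h2
  simp only [List.getElem_map, List.getElem_range, List.getElem_ofFn]
  have e := ofFn_getD S ⟨j, hj⟩
  simp only at e
  rw [e]
  by_cases h : j = (M.stk q).val
  · have : (⟨j, hj⟩ : Fin b) = M.stk q := Fin.ext h
    rw [if_pos h, this, Function.update_self, op_apply]
  · rw [if_neg h, Function.update_of_ne (fun e => h (congrArg Fin.val e))]

theorem lstep_iter (t : ℕ) (c : Fin a × (Fin b → List (Fin d))) :
    (lstep M)^[t] (rep c) = rep (M.step^[t] c) := by
  induction t generalizing c with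
  | zero => rfl
  | succ t ih => rw [Function.iterate_succ_apply, Function.iterate_succ_apply, lstep_rep, ih]

theorem pt_lstep : PT (lstep M) := by
  have h1 : PT fun z : Fin a × Option (Fin d) => M.nxt z.1 z.2 := PT.of_finite _
  have h2 : PT fun z : Fin a × Option (Fin d) => opPush (M.op z.1 z.2) := PT.of_finite _
  have h3 : PT fun z : Fin a × Option (Fin d) => opPop (M.op z.1 z.2) := PT.of_finite _
  have h4 : PT M.stk := PT.of_finite _
  have g0 : PT fun c : Fin a × List (List (Fin d)) =>
      (c.1, (c.2.getD (M.stk c.1).val []).head?) := by fun_prop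
  have g1 := h1.comp g0
  have g2 := h2.comp g0
  have g3 := h3.comp g0
  unfold lstep
  refine PT.mk g1 (PT.map ?_ (by fun_prop))
  refine PT.ite (by fun_prop) (PT.append (g2.comp PT.fst') (PT.cond (g3.comp PT.fst')
    (by fun_prop) (by fun_prop))) (by fun_prop)

theorem sz_list_le {γ : Type} [Enc γ] (l : List γ) (B : ℕ) (h : ∀ x ∈ l, sz x ≤ B) :
    sz l ≤ l.length * (2 * B + 1) := by
  induction l with
  | nil => simp
  | cons x l ih =>
    have h1 := h x (by simp)
    have h2 := ih fun y hy => h y (by simp [hy])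
    rw [sz_cons, List.length_cons, Nat.add_mul]
    omega

theorem sz_fin {n : ℕ} (i : Fin n) : sz i ≤ n := by
  have : sz i = sz i.val := rfl
  rw [this, sz_nat]
  exact i.2.le

theorem sz_rep (c : Fin a × (Fin b → List (Fin d))) (B : ℕ) (h : ∀ k, (c.2 k).length ≤ B) :
    sz (rep c) ≤ 2 * a + 1 + b * (2 * (B * (2 * d + 1)) + 1) := by
  have h1 := sz_fin c.1
  have h2 := sz_list_le (List.ofFn c.2) (B * (2 * d + 1)) (by
    intro x hx
    obtain ⟨k, rfl⟩ := List.mem_ofFn.1 hx
    exact (sz_list_le _ d fun y _ => sz_fin y).trans (Nat.mul_le_mul_right _ (h k)))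
  rw [List.length_ofFn] at h2
  simp only [rep, sz_pair]
  omega

end machine

/-- Functions computed by polynomial-time machines are in `PT`. -/
theorem pt_of_tm2 {α β α' β' : Type} [Enc α] [Enc β] {ea : α' → List Bool} {eb : β' → List Bool}
    {g : α' → β'} (h : Nonempty (TM2ComputableInPolyTime ea eb g)) (f : α → β) (i : α → α')
    (hi : ∀ x, ea (i x) = enc x) (ho : ∀ x, eb (g (i x)) = enc (f x)) : PT f := by
  obtain ⟨tmc⟩ := h
  obtain ⟨a, b, d, M, q0, k0, k1, ι, o, c, hM⟩ := exists_NM_out tmc.tm tmc.outputAlphabet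
  let ι' : Bool → Fin d := fun β => ι (tmc.inputAlphabet.symm β)
  let c0 : α → Fin a × (Fin b → List (Fin d)) := fun x =>
    (q0, Function.update (fun _ => []) k0 ((enc x).map ι'))
  have hι : PT ι' := PT.of_finite _
  have ho' : PT o := PT.of_finite _
  have hinit : PT fun x => rep (c0 x) := by
    refine PT.of_eq (f := fun x => (q0, (List.range b).map fun j =>
      if j = k0.val then (enc x).map ι' else [])) (by fun_prop) fun x => ?_
    simp only [rep, c0, Prod.mk.injEq, true_and]
    refine List.ext_getElem (by simp) fun j h1 h2 => ?_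
    have hj : j < b := by simpa using h1
    simp only [List.getElem_map, List.getElem_range, List.getElem_ofFn]
    by_cases h : j = k0.val
    · have : (⟨j, hj⟩ : Fin b) = k0 := Fin.ext h
      rw [if_pos h, this, Function.update_self]
    · rw [if_neg h, Function.update_of_ne (fun e => h (congrArg Fin.val e))]
  have hp := IsPoly.eval tmc.time
  have hit : PT fun x => (lstep M)^[c * tmc.time.eval (sz x)] (rep (c0 x)) := by
    refine PT.iterate (pt_lstep M) (by fun_prop) hinit
      (fun n => 2 * a + 1 + b * (2 * ((n + c * tmc.time.eval n) * (2 * d + 1)) + 1))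
      (by fun_prop) fun x t ht => ?_
    rw [lstep_iter]
    refine sz_rep _ _ fun k => (M.iterate_length t _ k).trans ?_
    have : ((c0 x).2 k).length ≤ sz x := by
      by_cases hk : k = k0
      · subst hk; simp [c0, sz]
      · simp [c0, Function.update_of_ne hk]
    omega
  have hout : PT fun x => Raw.mk
      ((((lstep M)^[c * tmc.time.eval (sz x)] (rep (c0 x))).2.getD k1.val []).map o) :=
    PT.toRaw (PT.map (f := fun _ y => o y) (by fun_prop) (PT.getD hit.snd (by fun_prop) (by fun_prop)))
  refine hout.of_enc (fun x => x) (fun _ => rfl) fun x => ?_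
  rw [enc_raw, lstep_iter, rep, ofFn_getD]
  obtain ⟨⟨n, hn⟩, hle⟩ := tmc.outputsFun (i x)
  dsimp only at hle
  rw [hi] at hn hle
  have h1 := hM _ _ n hn (c * tmc.time.eval (sz x)) (Nat.mul_le_mul_left _ hle)
  rw [List.map_map, List.map_map] at h1
  refine Eq.trans ?_ (ho x)
  refine Eq.trans h1 ?_
  conv_rhs => rw [← List.map_id (eb (g (i x)))]
  exact List.map_congr_left fun β _ => tmc.outputAlphabet.apply_symm_apply β

section
variable {α β : Type} [Enc α] [Enc β]

@[fun_prop] theorem pt_dex {p : α → β → Prop} {l : α → List β} [∀ x y, Decidable (p x y)]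
    [∀ x, Decidable (∃ y ∈ l x, p x y)] (hp : PT fun z : α × β => decide (p z.1 z.2))
    (hl : PT l) : PT fun x => decide (∃ y ∈ l x, p x y) :=
  (PT.any (f := fun x y => decide (p x y)) hp hl).of_eq fun _ => by
    rw [Bool.eq_iff_iff]; simp

@[fun_prop] theorem pt_dall {p : α → β → Prop} {l : α → List β} [∀ x y, Decidable (p x y)]
    [∀ x, Decidable (∀ y ∈ l x, p x y)] (hp : PT fun z : α × β => decide (p z.1 z.2))
    (hl : PT l) : PT fun x => decide (∀ y ∈ l x, p x y) :=
  (PT.all (f := fun x y => decide (p x y)) hp hl).of_eq fun _ => by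
    rw [Bool.eq_iff_iff]; simp

@[fun_prop] theorem pt_dtrue {f : α → Bool} [∀ x, Decidable (f x = true)] (hf : PT f) :
    PT fun x => decide (f x = true) :=
  hf.of_eq fun _ => by simp

end

/-- Formulas in conjunctive normal form. -/
abbrev Cnf := List (List (ℕ × Bool))

/-- An assignment satisfies a formula. -/
def Sat (A : ℕ → Bool) (φ : Cnf) : Prop := ∀ c ∈ φ, ∃ l ∈ c, A l.1 = l.2

open Pool.Agent.Lib.Cx.Tab in
/-- Cook-Levin for relations on an arbitrary encoded type. -/
theorem cook_levin_gen {α : Type} [Enc α] (R : α × List Bool → Bool) (hR : PT R) (P : α → ℕ)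
    (hP : PT P) : ∃ φ : α → Cnf, PT φ ∧ (∀ x, ∀ c ∈ φ x, c.length = 3) ∧
      ∀ x, (∃ A, Sat A (φ x)) ↔ ∃ w : List Bool, w.length ≤ P x ∧ R (x, w) = true := by
  obtain ⟨tmc⟩ := hR.tm2 enc enc R (fun a => a) (fun _ => rfl) fun _ => rfl
  obtain ⟨a, b, d, M, q0, qacc, qrej, k0, ι, c, hne, -, -, htime, -⟩ :=
    exists_NM tmc.tm tmc.outputAlphabet
  let ι' : Bool → Fin d := fun β => ι (tmc.inputAlphabet.symm β)
  let pre : α → List Bool := fun x => enc (x, ())
  let T : α → ℕ := fun x => c * (tmc.time.eval (2 * sz x + 1 + 3 * P x) + 1)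
  have e : ∀ x (w : List Bool), enc (x, w) = pre x ++ w.flatMap tri := by
    intro x w
    have : enc w = w.flatMap tri := encode_list w
    simp only [pre, enc_pair, this]
    simp [enc]
  have hrun : ∀ x (w : List Bool), w.length ≤ P x →
      ((M.step^[T x] (start q0 k0 ι' (pre x) w)).1 ≠ qrej ↔ R (x, w) = true) := by
    intro x w hw
    obtain ⟨⟨n, hn⟩, hle⟩ := tmc.outputsFun (x, w)
    dsimp only at hle
    have hl : (enc (x, w)).length ≤ 2 * sz x + 1 + 3 * P x := by
      have h1 : (enc (x, w)).length = sz (x, w) := rfl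
      have h2 := sz_list_le w 1 (fun _ _ => le_rfl)
      rw [h1, sz_pair]
      omega
    have h1 := htime _ (tmc.outputAlphabet.symm (R (x, w))) n hn (T x)
      (Nat.mul_le_mul_left _ (Nat.add_le_add_right (hle.trans (eval_mono _ hl)) _))
    have e2 : start q0 k0 ι' (pre x) w =
        (q0, Function.update (fun _ => []) k0
          ((List.map tmc.inputAlphabet.invFun (enc (x, w))).map ι)) := by
      simp only [start, List.map_map, e]
      rfl
    rw [e2, h1]
    cases R (x, w) <;> simp [hne]
  refine ⟨fun x => tab M q0 qrej k0 ι' (pre x) (P x) (T x), ?_,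
    fun x => form_length _ _ _ _ _ _ _ _ _ _, fun x => ?_⟩
  · exact pt_form _ _ _ _ _ _ _ (by fun_prop) hP (by fun_prop)
  · exact (tab_iff M q0 qrej k0 ι' (pre x) (P x) (T x)).trans
      (exists_congr fun w => and_congr_right fun hw => hrun x w hw)

end Pool.Agent.Work.MP_4489ea_co
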