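import Mathlib
import Pool.Agent.Work.MP_4489ea_co.Basic
import Pool.Agent.Work.MP_4489ea_co.Bridge

-- merged part: Pool.Agent.Work.MP_4489ea_co.Star
section
/-!
The graph of a set system: element vertices, set vertices, and a star hanging at each set vertex.
-/

namespace Pool.Agent.Work.MP_4489ea_co

/-- Vertices: elements, and for each set the set vertex (`none`), the centre of its star
(`some none`) and the leaves. -/
abbrev Vx (E T : Type) (M : ℕ) : Type := E ⊕ T × Option (Option (Fin M))

variable {E T : Type} (q : Prop) (inc : T → E → Prop) (M : ℕ)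

/-- Adjacency; the elements form a clique if `q` holds and an independent set otherwise. -/
def adj : Vx E T M → Vx E T M → Prop
  | .inl e, .inl e' => q ∧ e ≠ e'
  | .inl e, .inr p => p.2 = none ∧ inc p.1 e
  | .inr p, .inl e => p.2 = none ∧ inc p.1 e
  | .inr p, .inr p' => p.1 = p'.1 ∧ p.2 ≠ p'.2 ∧ (p.2 = some none ∨ p'.2 = some none)

/-- The graph of the set system. -/
def gr : SimpleGraph (Vx E T M) where
  Adj := adj q inc M
  symm := ⟨by rintro (e | p) (e' | p') <;> simp only [adj] <;> tauto⟩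
  loopless := ⟨by rintro (e | p) <;> simp [adj]⟩

/-- Exact covers. -/
def Exact (A : Finset T) : Prop := ∀ e, ∃! s, s ∈ A ∧ inc s e

theorem gr_bipartite : (gr False inc M).Colorable 2 := by
  let c : Vx E T M → Bool := fun v => match v with
    | .inl _ => false
    | .inr (_, none) => true
    | .inr (_, some none) => false
    | .inr (_, some (some _)) => true
  have : (gr False inc M).Coloring Bool := SimpleGraph.Coloring.mk c (by
    rintro (e | ⟨s, _ | _ | l⟩) (e' | ⟨s', _ | _ | l'⟩) <;> simp [gr, adj, c])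
  simpa using this.colorable

theorem gr_connected (y : E) (h1 : ∀ e, ∃ s, inc s e ∧ inc s y) (h2 : ∀ s, ∃ e, inc s e) :
    (gr q inc M).Connected := by
  have a1 : ∀ s e, inc s e → (gr q inc M).Adj (.inr (s, none)) (.inl e) := fun s e h => ⟨rfl, h⟩
  have r1 : ∀ e, (gr q inc M).Reachable (.inl e) (.inl y) := by
    intro e
    obtain ⟨s, h, h'⟩ := h1 e
    exact (a1 s e h).symm.reachable.trans (a1 s y h').reachable
  have r2 : ∀ s, (gr q inc M).Reachable (.inr (s, none)) (.inl y) := by
    intro s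
    obtain ⟨e, h⟩ := h2 s
    exact (a1 s e h).reachable.trans (r1 e)
  have r3 : ∀ s, (gr q inc M).Reachable (.inr (s, some none)) (.inl y) := by
    intro s
    have : (gr q inc M).Adj (.inr (s, some none)) (.inr (s, none)) := by simp [gr, adj]
    exact this.reachable.trans (r2 s)
  have r4 : ∀ v, (gr q inc M).Reachable v (.inl y) := by
    rintro (e | ⟨s, _ | _ | l⟩)
    · exact r1 e
    · exact r2 s
    · exact r3 s
    · have : (gr q inc M).Adj (.inr (s, some (some l))) (.inr (s, some none)) := by simp [gr, adj]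
      exact this.reachable.trans (r3 s)
  have : Nonempty (Vx E T M) := ⟨.inl y⟩
  exact ⟨fun u v => (r4 u).trans (r4 v).symm⟩

open Fin.CommRing in
theorem cycle_nbrs (k : ℕ) (hk : 4 ≤ k) (i : Fin k) :
    ∃ a b : Fin k, a ≠ b ∧ (SimpleGraph.cycleGraph k).Adj i a ∧
      (SimpleGraph.cycleGraph k).Adj i b ∧ ¬ (SimpleGraph.cycleGraph k).Adj a b := by
  obtain ⟨n, rfl⟩ : ∃ n, k = n + 4 := ⟨k - 4, by omega⟩
  have two : ((2 : Fin (n + 4)) : ℕ) = 2 := rfl
  have one : ((1 : Fin (n + 4)) : ℕ) = 1 := rfl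
  have h21 : (2 : Fin (n + 4)) ≠ 1 := fun h => by
    have := congrArg Fin.val h
    rw [two, one] at this
    omega
  have h20 : (2 : Fin (n + 4)) ≠ 0 := fun h => by
    have := congrArg Fin.val h
    rw [two] at this
    simp at this
  have h30 : (3 : Fin (n + 4)) ≠ 0 := fun h => by
    have := congrArg Fin.val h
    have three : ((3 : Fin (n + 4)) : ℕ) = 3 := rfl
    rw [three] at this
    simp at this
  refine ⟨i + 1, i - 1, fun h => h20 ?_, ?_, ?_, ?_⟩
  · linear_combination h
  · rw [SimpleGraph.cycleGraph_adj]; right; ring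
  · rw [SimpleGraph.cycleGraph_adj]; left; ring
  · rw [SimpleGraph.cycleGraph_adj]
    rintro (h | h)
    · exact h21 (by linear_combination h)
    · exact h30 (by linear_combination -h)

theorem gr_chordal : Chordal (gr True inc M) := by
  intro k hk
  refine ⟨fun f => ?_⟩
  have key : ∀ i : Fin k, ∃ a b : Fin k, f a ≠ f b ∧ adj True inc M (f i) (f a) ∧
      adj True inc M (f i) (f b) ∧ ¬ adj True inc M (f a) (f b) := by
    intro i
    obtain ⟨a, b, h1, h2, h3, h4⟩ := cycle_nbrs k hk i
    exact ⟨a, b, fun h => h1 (f.injective h), f.map_adj_iff.2 h2, f.map_adj_iff.2 h3,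
      fun h => h4 (f.map_adj_iff.1 h)⟩
  have leaf : ∀ i s l, f i ≠ .inr (s, some (some l)) := by
    intro i s l e
    obtain ⟨a, b, h1, h2, h3, -⟩ := key i
    rw [e] at h2 h3
    generalize f a = u at h1 h2
    generalize f b = v at h1 h3
    clear * - h1 h2 h3
    rcases u with _ | ⟨s1, r1⟩ <;> rcases v with _ | ⟨s2, r2⟩ <;> simp_all [adj]
  have supp : ∀ i s, f i ≠ .inr (s, some none) := by
    intro i s e
    obtain ⟨a, b, h1, h2, h3, -⟩ := key i
    have ha := leaf a
    have hb := leaf b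
    rw [e] at h2 h3
    generalize f a = u at h1 h2 ha
    generalize f b = v at h1 h3 hb
    clear * - h1 h2 h3 ha hb
    rcases u with _ | ⟨s1, _ | _ | _⟩ <;> rcases v with _ | ⟨s2, _ | _ | _⟩ <;> simp_all [adj]
  have sets : ∀ i s, f i ≠ .inr (s, none) := by
    intro i s e
    obtain ⟨a, b, h1, h2, h3, h4⟩ := key i
    have ha := supp a
    have hb := supp b
    rw [e] at h2 h3
    generalize f a = u at h1 h2 ha h4
    generalize f b = v at h1 h3 hb h4
    clear * - h1 h2 h3 h4 ha hb
    rcases u with _ | ⟨s1, _ | _ | _⟩ <;> rcases v with _ | ⟨s2, _ | _ | _⟩ <;> simp_all [adj]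
  have el : ∀ i, ∃ e, f i = .inl e := by
    intro i
    have h1 := leaf i
    have h2 := supp i
    have h3 := sets i
    generalize f i = u at h1 h2 h3
    rcases u with e | ⟨s, _ | _ | l⟩
    · exact ⟨e, rfl⟩
    · exact absurd rfl (h3 s)
    · exact absurd rfl (h2 s)
    · exact absurd rfl (h1 s l)
  obtain ⟨a, b, h1, -, -, h4⟩ := key ⟨0, by omega⟩
  obtain ⟨e, he⟩ := el a
  obtain ⟨e', he'⟩ := el b
  rw [he, he'] at h1 h4
  clear * - h1 h4
  simp_all [adj]

variable [Fintype E] [Fintype T]

open Classical in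
/-- Twice the number of chosen sets plus the number of elements not covered exactly once. -/
noncomputable def cc (A : Finset T) : ℕ :=
  2 * A.card + ∑ e, if ∃! s, s ∈ A ∧ inc s e then 0 else 1

omit [Fintype T] in
theorem cc_exact {A : Finset T} (h : Exact inc A) : cc inc A = 2 * A.card := by
  simp [cc, h _]

theorem wt_split (S : Finset (Vx E T M)) : wt (gr q inc M) S =
    ∑ e, cst (gr q inc M) S (.inl e) + (∑ s, cst (gr q inc M) S (.inr (s, none)) +
      ∑ s, (cst (gr q inc M) S (.inr (s, some none)) +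
        ∑ l, cst (gr q inc M) S (.inr (s, some (some l))))) := by
  simp only [wt, Fintype.sum_sum_type, Fintype.sum_prod_type, Fintype.sum_option,
    Finset.sum_add_distrib]

omit [Fintype E] [Fintype T] in
theorem star_big (S : Finset (Vx E T M)) (s : T) (h : .inr (s, some none) ∉ S) :
    M ≤ ∑ l, cst (gr q inc M) S (.inr (s, some (some l))) := by
  have := Finset.card_nsmul_le_sum Finset.univ
    (fun l => cst (gr q inc M) S (.inr (s, some (some l)))) 1 fun l _ => one_le_cst _ (by
      rintro ⟨u, ⟨h1, h2⟩, -⟩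
      rcases u with _ | ⟨s1, r1⟩
      · simp [gr, adj] at h2
      · simp only [gr, adj] at h2
        obtain ⟨rfl, -, h3 | rfl⟩ := h2
        · simp at h3
        · exact h h1)
  simpa using this

omit [Fintype E] [Fintype T] in
theorem star_two (hM : 2 ≤ M) (S : Finset (Vx E T M)) (s : T) :
    2 ≤ cst (gr q inc M) S (.inr (s, some none)) +
        ∑ l, cst (gr q inc M) S (.inr (s, some (some l))) := by
  by_cases h : .inr (s, some none) ∈ S
  · rw [cst_mem _ h]; omega
  · have := star_big q inc M S s h; omega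

omit [Fintype E] in
theorem stars_ge (hM : 2 ≤ M) (S : Finset (Vx E T M)) :
    2 * Fintype.card T ≤ ∑ s, (cst (gr q inc M) S (.inr (s, some none)) +
        ∑ l, cst (gr q inc M) S (.inr (s, some (some l)))) := by
  have := Finset.card_nsmul_le_sum Finset.univ _ 2 fun s _ => star_two q inc M hM S s
  simpa [mul_comm] using this

open Classical in
/-- The sets chosen by a vertex set. -/
noncomputable def chosen (S : Finset (Vx E T M)) : Finset T :=
  Finset.univ.filter fun s => .inr (s, none) ∈ S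

omit [Fintype E] in
theorem uniq_elem (S : Finset (Vx E T M)) (h : ∀ e, .inl e ∉ S) (e : E) :
    (∃! u, u ∈ S ∧ (gr q inc M).Adj (.inl e) u) ↔ ∃! s, s ∈ chosen M S ∧ inc s e := by
  simp only [chosen, Finset.mem_filter, Finset.mem_univ, true_and]
  constructor
  · rintro ⟨u, ⟨h1, h2⟩, h3⟩
    rcases u with e' | ⟨s, r⟩
    · exact absurd h1 (h e')
    · obtain ⟨h4, h5⟩ := h2
      simp only at h4 h5
      subst h4
      refine ⟨s, ⟨h1, h5⟩, fun s' hs' => ?_⟩
      have := h3 (.inr (s', none)) ⟨hs'.1, rfl, hs'.2⟩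
      simpa using this
  · rintro ⟨s, ⟨h1, h2⟩, h3⟩
    refine ⟨.inr (s, none), ⟨h1, rfl, h2⟩, ?_⟩
    rintro (e' | ⟨s', r⟩) ⟨h4, h5⟩
    · exact absurd h4 (h e')
    · obtain ⟨h6, h7⟩ := h5
      simp only at h6 h7
      subst h6
      rw [h3 s' ⟨h4, h7⟩]

open Classical in
theorem no_elem (hM : 2 ≤ M) (hdeg : ∀ e, M ≤ (Finset.univ.filter fun s => inc s e).card)
    (S : Finset (Vx E T M)) (h : wt (gr q inc M) S + 2 < 2 * Fintype.card T + M) (e : E) :
    .inl e ∉ S := by
  intro he
  rw [wt_split] at h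
  by_cases hs : ∀ s, .inr (s, some none) ∈ S
  · have h1 := stars_ge q inc M hM S
    have h2 : ∑ s, (if inc s e then 1 else 0) ≤ ∑ s, cst (gr q inc M) S (.inr (s, none)) := by
      refine Finset.sum_le_sum fun s _ => ?_
      split_ifs with hi
      · refine one_le_cst _ fun hu => ?_
        have := hu.unique (y₁ := .inl e) (y₂ := .inr (s, some none)) ⟨he, rfl, hi⟩
          ⟨hs s, by simp [gr, adj]⟩
        simp at this
      · omega
    rw [← Finset.card_filter] at h2
    have := hdeg e
    omega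
  · push Not at hs
    obtain ⟨s, hs⟩ := hs
    have h1 := star_big q inc M S s hs
    have h2 := Finset.card_nsmul_le_sum (Finset.univ.erase s) _ 2
      fun s _ => star_two q inc M hM S s
    have h3 := Finset.add_sum_erase Finset.univ (fun s => cst (gr q inc M) S (.inr (s, some none)) +
      ∑ l, cst (gr q inc M) S (.inr (s, some (some l)))) (Finset.mem_univ s)
    rw [Finset.card_erase_of_mem (Finset.mem_univ s), smul_eq_mul, Finset.card_univ] at h2
    have : 0 < Fintype.card T := Fintype.card_pos_iff.2 ⟨s⟩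
    omega

theorem wt_ge (hM : 2 ≤ M) (S : Finset (Vx E T M)) (h : ∀ e, .inl e ∉ S) :
    2 * Fintype.card T + cc inc (chosen M S) ≤ wt (gr q inc M) S := by
  classical
  rw [wt_split]
  have h1 := stars_ge q inc M hM S
  have h2 : ∑ s, (if s ∈ chosen M S then 2 else 0) ≤
      ∑ s, cst (gr q inc M) S (.inr (s, none)) := by
    refine Finset.sum_le_sum fun s _ => ?_
    split_ifs with hi
    · rw [cst_mem _ (by simpa [chosen] using hi)]
    · omega
  have h3 : ∑ e, cst (gr q inc M) S (.inl e) =
      ∑ e, if ∃! s, s ∈ chosen M S ∧ inc s e then 0 else 1 := by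
    refine Finset.sum_congr rfl fun e _ => ?_
    rw [cst, if_neg (h e)]
    exact if_congr (uniq_elem q inc M S h e) rfl rfl
  simp only [Finset.sum_ite_mem, Finset.univ_inter, Finset.sum_const, smul_eq_mul] at h2
  unfold cc
  omega

open Classical in
/-- The vertex set given by chosen sets and all star centres. -/
noncomputable def lift (A : Finset T) : Finset (Vx E T M) :=
  Finset.univ.filter fun v => ∃ s, (s ∈ A ∧ v = .inr (s, none)) ∨ v = .inr (s, some none)

theorem chosen_lift (A : Finset T) : chosen M (lift (E := E) M A) = A := by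
  ext s
  simp [chosen, lift]

theorem lift_set (A : Finset T) (s : T) :
    ∃! u, u ∈ lift M A ∧ (gr q inc M).Adj (.inr (s, none)) u := by
  refine ⟨.inr (s, some none), ⟨by simp [lift], by simp [gr, adj]⟩, ?_⟩
  rintro (e | ⟨s', _ | _ | l⟩) <;> simp [lift, gr, adj, eq_comm]

theorem lift_leaf (A : Finset T) (s : T) (l : Fin M) :
    ∃! u, u ∈ lift M A ∧ (gr q inc M).Adj (.inr (s, some (some l))) u := by
  refine ⟨.inr (s, some none), ⟨by simp [lift], by simp [gr, adj]⟩, ?_⟩
  rintro (e | ⟨s', _ | _ | l⟩) <;> simp [lift, gr, adj, eq_comm]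

theorem wt_lift (A : Finset T) :
    wt (gr q inc M) (lift M A) = 2 * Fintype.card T + cc inc A := by
  classical
  rw [wt_split]
  have h0 : ∀ e, (.inl e : Vx E T M) ∉ lift M A := by simp [lift]
  have h3 : ∑ e, cst (gr q inc M) (lift M A) (.inl e) =
      ∑ e, if ∃! s, s ∈ A ∧ inc s e then 0 else 1 := by
    refine Finset.sum_congr rfl fun e _ => ?_
    rw [cst, if_neg (h0 e)]
    have := uniq_elem q inc M _ h0 e
    rw [chosen_lift] at this
    exact if_congr this rfl rfl
  have h2 : ∀ s, cst (gr q inc M) (lift M A) (.inr (s, none)) = if s ∈ A then 2 else 0 := by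
    intro s
    split_ifs with hs
    · exact cst_mem _ (by simpa [lift] using hs)
    · exact cst_good _ (by simpa [lift] using hs) (lift_set q inc M A s)
  have h4 : ∀ s, cst (gr q inc M) (lift M A) (.inr (s, some none)) = 2 :=
    fun s => cst_mem _ (by simp [lift])
  have h5 : ∀ s l, cst (gr q inc M) (lift M A) (.inr (s, some (some l))) = 0 :=
    fun s l => cst_good _ (by simp [lift]) (lift_leaf q inc M A s l)
  simp only [h3, h2, h4, h5, cc, Finset.sum_ite_mem, Finset.univ_inter, Finset.sum_const,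
    smul_eq_mul, Finset.card_univ]
  omega

theorem lift_pds {A : Finset T} (h : Exact inc A) : IsPDS (gr q inc M) (lift M A) := by
  rintro (e | ⟨s, _ | _ | l⟩) hv
  · rw [uniq_elem q inc M _ (by simp [lift]), chosen_lift]
    exact h e
  · exact lift_set q inc M A s
  · simp [lift] at hv
  · exact lift_leaf q inc M A s l

open Classical in
theorem pr_gr (hdeg : ∀ e, M ≤ (Finset.univ.filter fun s => inc s e).card)
    (A0 : Finset T) (h0 : cc inc A0 + 2 < M) :
    PerfectRoman (gr q inc M) ↔ ∃ A, Exact inc A ∧ ∀ A', cc inc A ≤ cc inc A' := by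
  have hM : 2 ≤ M := by omega
  rw [pr_iff]
  constructor
  · rintro ⟨S, hS, h⟩
    have h1 := h (lift M A0)
    rw [wt_lift] at h1
    have h2 := no_elem q inc M hM hdeg S (by omega)
    refine ⟨chosen M S, fun e => (uniq_elem q inc M S h2 e).1 (hS _ (h2 e)), fun A' => ?_⟩
    have h3 := h (lift M A')
    rw [wt_lift] at h3
    have := wt_ge q inc M hM S h2
    omega
  · rintro ⟨A, hA, h⟩
    refine ⟨lift M A, lift_pds q inc M hA, fun S' => ?_⟩
    rw [wt_lift]
    have h1 := h A0
    by_cases hc : wt (gr q inc M) S' + 2 < 2 * Fintype.card T + M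
    · have h2 := wt_ge q inc M hM S' (no_elem q inc M hM hdeg S' hc)
      have := h (chosen M S')
      omega
    · omega

end Pool.Agent.Work.MP_4489ea_co
end

-- merged part: Pool.Agent.Work.MP_4489ea_co.Heavy
section
/-!
Repeating the elements, adding one light element and useless sets of large size.
-/

namespace Pool.Agent.Work.MP_4489ea_co

/-- Elements: a light element and `3 M` copies of every old element. -/
abbrev E1 (E : Type) (M : ℕ) : Type := Option (E × Fin 3 × Fin M)

/-- Sets: the old sets and `2 M` useless sets. -/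
abbrev T1 (T : Type) (M : ℕ) : Type := T ⊕ Fin 2 × Fin M

variable {E T : Type} (inc : T → E → Prop) (lt : T → Prop) (M : ℕ)

/-- The new incidence relation. -/
def inc1 : T1 T M → E1 E M → Prop
  | .inl s, none => lt s
  | .inl s, some p => inc s p.1
  | .inr _, none => True
  | .inr d, some p => d.1.val ≠ p.2.1.val

theorem dummy (e : E1 E M) : ∃ d : Fin 2, ∀ i, inc1 inc lt M (.inr (d, i)) e := by
  rcases e with _ | ⟨e, a, k⟩
  · exact ⟨0, fun _ => trivial⟩
  · by_cases h : a.val = 0
    · exact ⟨1, fun _ => by simp [inc1, h]⟩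
    · exact ⟨0, fun _ => fun h' => h h'.symm⟩

theorem gr1_connected (q : Prop) (hM : 0 < M) (h : ∀ s, ∃ e, inc s e) :
    (gr q (inc1 inc lt M) M).Connected := by
  refine gr_connected q _ M none (fun e => ?_) ?_
  · obtain ⟨d, hd⟩ := dummy inc lt M e
    exact ⟨_, hd ⟨0, hM⟩, trivial⟩
  · rintro (s | d)
    · obtain ⟨e, he⟩ := h s
      exact ⟨some (e, 0, ⟨0, hM⟩), he⟩
    · exact ⟨none, trivial⟩

theorem uniq_inl (A : Finset T) (e : E1 E M) (P : T → Prop)
    (h : ∀ s, inc1 inc lt M (.inl s) e ↔ P s) :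
    (∃! s, s ∈ A.map Function.Embedding.inl ∧ inc1 inc lt M s e) ↔ ∃! s, s ∈ A ∧ P s := by
  constructor
  · rintro ⟨s, ⟨h1, h2⟩, h3⟩
    obtain ⟨s, hs, rfl⟩ := Finset.mem_map.1 h1
    refine ⟨s, ⟨hs, (h s).1 h2⟩, fun s' hs' => ?_⟩
    exact Sum.inl_injective (h3 (.inl s') ⟨Finset.mem_map_of_mem _ hs'.1, (h s').2 hs'.2⟩)
  · rintro ⟨s, ⟨h1, h2⟩, h3⟩
    refine ⟨.inl s, ⟨Finset.mem_map_of_mem _ h1, (h s).2 h2⟩, fun s' hs' => ?_⟩
    obtain ⟨s', hs, rfl⟩ := Finset.mem_map.1 hs'.1
    exact congrArg Sum.inl (h3 s' ⟨hs, (h s').1 hs'.2⟩)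

variable [Fintype E] [Fintype T]

omit [Fintype E] in
open Classical in
theorem deg1 (e : E1 E M) : M ≤ (Finset.univ.filter fun s => inc1 inc lt M s e).card := by
  obtain ⟨d, hd⟩ := dummy inc lt M e
  have := Finset.card_le_card_of_injOn (s := (Finset.univ : Finset (Fin M)))
    (t := Finset.univ.filter fun s => inc1 inc lt M s e) (fun i => Sum.inr (d, i))
    (fun i _ => by simpa using hd i) (fun i _ j _ h => by simpa using h)
  simpa using this

omit [Fintype T] in
open Classical in
theorem cc_inl {A : Finset T} (h : Exact inc A) :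
    cc (inc1 inc lt M) (A.map Function.Embedding.inl) =
      2 * A.card + if ∃! s, s ∈ A ∧ lt s then 0 else 1 := by
  rw [cc, Fintype.sum_option, Finset.card_map, Finset.sum_eq_zero, add_zero]
  · congr 1
    exact if_congr (uniq_inl inc lt M A none lt fun _ => Iff.rfl) rfl rfl
  · intro p _
    exact if_pos ((uniq_inl inc lt M A (some p) (fun s => inc s p.1) fun _ => Iff.rfl).2 (h _))

theorem small_cc [Nonempty E] {B : Finset (T1 T M)} (h : cc (inc1 inc lt M) B < M) :
    ∃ A : Finset T, B = A.map Function.Embedding.inl ∧ Exact inc A := by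
  classical
  have h1 : ∀ e a, ∃ k, ∃! s, s ∈ B ∧ inc1 inc lt M s (some (e, a, k)) := by
    intro e a
    by_contra hc
    push Not at hc
    have h2 := Finset.sum_le_sum_of_subset
      (f := fun e => if ∃! s, s ∈ B ∧ inc1 inc lt M s e then 0 else 1)
      (Finset.subset_univ (Finset.univ.image fun k : Fin M => (some (e, a, k) : E1 E M)))
    rw [Finset.sum_image (fun i _ j _ h => by simpa using h)] at h2
    simp only [hc, if_false, Finset.sum_const, Finset.card_univ, Fintype.card_fin,
      smul_eq_mul] at h2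
    unfold cc at h
    omega
  have h2 : ∀ d, Sum.inr d ∉ B := by
    rintro ⟨d, i⟩ hd
    obtain ⟨e⟩ := ‹Nonempty E›
    obtain ⟨k, s, ⟨h3, h4⟩, -⟩ := h1 e ⟨d.val, by omega⟩
    obtain ⟨k', h5⟩ := h1 e 2
    have h6 : ∀ d' : Fin 2 × Fin M, inc1 inc lt M (.inr d') (some (e, 2, k')) := by
      intro d' h
      have := d'.1.2
      simp at h
      omega
    have : s = .inr (d, i) := by
      refine h5.unique ⟨h3, ?_⟩ ⟨hd, h6 _⟩
      rcases s with s | d'
      · exact h4
      · exact h6 _
    subst this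
    exact h4 rfl
  have h3 : B = (Finset.univ.filter fun s => Sum.inl s ∈ B).map Function.Embedding.inl := by
    ext (s | d)
    · simp
    · simp [h2]
  refine ⟨_, h3, fun e => ?_⟩
  obtain ⟨k, h4⟩ := h1 e 0
  rw [h3] at h4
  exact (uniq_inl inc lt M _ (some (e, 0, k)) (fun s => inc s e) fun _ => Iff.rfl).1 h4

theorem pr_gr1 [Nonempty E] (q : Prop) (A0 : Finset T) (hA0 : Exact inc A0)
    (h0 : 2 * A0.card + 3 < M) :
    PerfectRoman (gr q (inc1 inc lt M) M) ↔ ∃ A, Exact inc A ∧ (∃! s, s ∈ A ∧ lt s) ∧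
      ∀ A', Exact inc A' → A.card ≤ A'.card := by
  have e0 := cc_inl inc lt M hA0
  have b0 : cc (inc1 inc lt M) (A0.map Function.Embedding.inl) + 2 < M := by
    rw [e0]; split_ifs <;> omega
  rw [pr_gr q _ M (deg1 inc lt M) _ b0]
  constructor
  · rintro ⟨B, hB, h⟩
    have h1 := h (A0.map Function.Embedding.inl)
    obtain ⟨A, rfl, hA⟩ := small_cc inc lt M (B := B) (by omega)
    have hy := (uniq_inl inc lt M A none lt fun _ => Iff.rfl).1 (hB none)
    refine ⟨A, hA, hy, fun A' hA' => ?_⟩
    have h2 := h (A'.map Function.Embedding.inl)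
    rw [cc_inl inc lt M hA, cc_inl inc lt M hA', if_pos hy] at h2
    split_ifs at h2 <;> omega
  · rintro ⟨A, hA, hy, h⟩
    refine ⟨A.map Function.Embedding.inl, ?_, fun B' => ?_⟩
    · rintro (_ | p)
      · exact (uniq_inl inc lt M A none lt fun _ => Iff.rfl).2 hy
      · exact (uniq_inl inc lt M A (some p) (fun s => inc s p.1) fun _ => Iff.rfl).2 (hA _)
    · rw [cc_inl inc lt M hA, if_pos hy]
      by_cases hc : cc (inc1 inc lt M) B' < M
      · obtain ⟨A', rfl, hA'⟩ := small_cc inc lt M hc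
        rw [cc_inl inc lt M hA']
        have := h A' hA'
        omega
      · have := h A0 hA0
        omega

end Pool.Agent.Work.MP_4489ea_co
end

-- merged part: Pool.Agent.Work.MP_4489ea_co.Cover
section
/-!
From formulas with costly variables to exact covers.
-/

namespace Pool.Agent.Work.MP_4489ea_co

/-- Elements: variables, occurrence guards, occurrences, clauses and payments. -/
abbrev E0 (U O Cl Tg : Type) : Type := U ⊕ O ⊕ O ⊕ Cl ⊕ Tg

/-- Sets: values of variables, three options for each occurrence, and payments. -/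
abbrev T0 (U O Tg : Type) : Type := U × Bool ⊕ O × Fin 3 ⊕ Tg

variable {U O Cl Tg : Type} (cl : O → Cl) (vr : O → U) (sg : O → Bool) (z : Tg → U) (s : U)

/-- The incidence relation of the exact cover instance. -/
def inc0 : T0 U O Tg → E0 U O Cl Tg → Prop
  | .inl p, .inl u => p.1 = u
  | .inl p, .inr (.inr (.inl o)) => vr o = p.1 ∧ sg o ≠ p.2
  | .inl p, .inr (.inr (.inr (.inr t))) => z t = p.1 ∧ p.2 = false
  | .inr (.inl p), .inr (.inl o) => p.1 = o
  | .inr (.inl p), .inr (.inr (.inl o)) => p.1 = o ∧ p.2 ≠ 0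
  | .inr (.inl p), .inr (.inr (.inr (.inl c))) => cl p.1 = c ∧ p.2 = 2
  | .inr (.inr t), .inr (.inr (.inr (.inr t'))) => t = t'
  | _, _ => False

/-- The marked set: the switch variable is true. -/
def lt0 : T0 U O Tg → Prop := fun x => x = .inl (s, true)

/-- Satisfying assignments. -/
def SatU (α : U → Bool) : Prop := ∀ c, ∃ o, cl o = c ∧ α (vr o) = sg o

theorem inc0_nonempty (x : T0 U O Tg) : ∃ e, inc0 cl vr sg z x e := by
  rcases x with p | p | t
  · exact ⟨.inl p.1, rfl⟩
  · exact ⟨.inr (.inl p.1), rfl⟩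
  · exact ⟨.inr (.inr (.inr (.inr t))), rfl⟩

variable [Fintype U] [Fintype O] [Fintype Tg]

/-- The number of true costly variables. -/
def cost (α : U → Bool) : ℕ := (Finset.univ.filter fun t => α (z t) = true).card

open Classical in
theorem card_split (A : Finset (T0 U O Tg)) : A.card =
    ∑ u, (∑ b, if Sum.inl (u, b) ∈ A then 1 else 0) +
      (∑ o, (∑ k, if Sum.inr (Sum.inl (o, k)) ∈ A then 1 else 0) +
        ∑ t, if Sum.inr (Sum.inr t) ∈ A then 1 else 0) := by
  have : A.card = ∑ x, if x ∈ A then 1 else 0 := by simp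
  rw [this]
  simp only [Fintype.sum_sum_type, Fintype.sum_prod_type]

theorem card_le_sum {ι κ : Type} [Fintype ι] [Fintype κ] (P : ι → κ → Prop)
    [∀ i k, Decidable (P i k)] (h : ∀ i, ∃ k, P i k) :
    Fintype.card ι ≤ ∑ i, ∑ k, if P i k then 1 else 0 := by
  have := Finset.card_nsmul_le_sum Finset.univ (fun i => ∑ k, if P i k then 1 else 0) 1
    fun i _ => by
      obtain ⟨k, hk⟩ := h i
      have := Finset.single_le_sum (f := fun k => if P i k then 1 else 0)
        (fun _ _ => Nat.zero_le _) (Finset.mem_univ k)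
      simpa [hk] using this
  simpa using this

theorem cover_sound {A : Finset (T0 U O Tg)} (h : Exact (inc0 cl vr sg z) A) :
    ∃ α, SatU cl vr sg α ∧ Fintype.card U + (Fintype.card O + cost z α) ≤ A.card ∧
      ((∃! x, x ∈ A ∧ lt0 s x) → α s = true) := by
  classical
  let α : U → Bool := fun u => decide (Sum.inl (u, true) ∈ A)
  have h1 : ∀ u, Sum.inl (u, α u) ∈ A := by
    intro u
    obtain ⟨x, ⟨h1, h2⟩, -⟩ := h (.inl u)
    rcases x with ⟨u', b⟩ | p | t
    · obtain rfl : u' = u := h2
      by_cases ht : Sum.inl (u', true) ∈ A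
      · simp [α, ht]
      · cases b
        · simpa [α, ht] using h1
        · exact absurd h1 ht
    · exact h2.elim
    · exact h2.elim
  have h2 : ∀ u b, Sum.inl (u, b) ∈ A → b = α u := by
    intro u b hb
    have := (h (.inl u)).unique (y₁ := .inl (u, b)) (y₂ := .inl (u, α u)) ⟨hb, rfl⟩ ⟨h1 u, rfl⟩
    simpa using this
  refine ⟨α, fun c => ?_, ?_, ?_⟩
  · obtain ⟨x, ⟨h3, h4⟩, -⟩ := h (.inr (.inr (.inr (.inl c))))
    rcases x with p | ⟨o, k⟩ | t
    · exact h4.elim
    · obtain ⟨h5, h6⟩ := h4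
      refine ⟨o, h5, ?_⟩
      by_contra hc
      have := (h (.inr (.inr (.inl o)))).unique (y₁ := .inl (vr o, α (vr o)))
        (y₂ := .inr (.inl (o, k))) ⟨h1 _, rfl, fun e => hc e.symm⟩
        ⟨h3, rfl, by simp only at h6; simp [h6]⟩
      simp at this
    · exact h4.elim
  · rw [card_split]
    refine Nat.add_le_add (card_le_sum _ fun u => ⟨_, h1 u⟩)
      (Nat.add_le_add (card_le_sum _ fun o => ?_) ?_)
    · obtain ⟨x, ⟨h3, h4⟩, -⟩ := h (.inr (.inl o))
      rcases x with p | ⟨o', k⟩ | t
      · exact h4.elim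
      · obtain rfl : o' = o := h4
        exact ⟨k, h3⟩
      · exact h4.elim
    · rw [cost, Finset.card_filter]
      refine Finset.sum_le_sum fun t _ => ?_
      split_ifs with h3 h4
      · exact le_rfl
      · exfalso
        obtain ⟨x, ⟨h5, h6⟩, -⟩ := h (.inr (.inr (.inr (.inr t))))
        rcases x with ⟨u, b⟩ | p | t'
        · obtain ⟨h7, h8⟩ := h6
          simp only at h7 h8
          have := h2 u b h5
          rw [← h7, h3, h8] at this
          cases this
        · exact h6.elim
        · obtain rfl : t' = t := h6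
          exact h4 h5
      · omega
      · exact le_rfl
  · rintro ⟨x, ⟨h3, rfl⟩, -⟩
    simpa [α] using h3

theorem cover_complete {α : U → Bool} (h : SatU cl vr sg α) :
    ∃ A : Finset (T0 U O Tg), Exact (inc0 cl vr sg z) A ∧
      A.card = Fintype.card U + (Fintype.card O + cost z α) ∧
      (α s = true → ∃! x, x ∈ A ∧ lt0 s x) := by
  classical
  choose ch h1 h2 using h
  let κ : O → Fin 3 := fun o => if α (vr o) = sg o then (if o = ch (cl o) then 2 else 1) else 0
  have k0 : ∀ o, κ o = 0 ↔ α (vr o) ≠ sg o := by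
    intro o
    simp only [κ]
    split_ifs with h3 h4
    · simp [h3]
    · simp [h3]
    · simp [h3]
  have k2 : ∀ o c, (cl o = c ∧ κ o = 2) ↔ o = ch c := by
    intro o c
    constructor
    · rintro ⟨rfl, h3⟩
      simp only [κ] at h3
      split_ifs at h3 with h4 h5
      · exact h5
      · exact absurd h3 (by decide)
      · exact absurd h3 (by decide)
    · rintro rfl
      simp [κ, h1, h2]
  let P : T0 U O Tg → Prop := fun x => match x with
    | .inl p => p.2 = α p.1
    | .inr (.inl p) => p.2 = κ p.1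
    | .inr (.inr t) => α (z t) = true
  refine ⟨Finset.univ.filter P, ?_, ?_, ?_⟩
  · simp only [Exact, Finset.mem_filter, Finset.mem_univ, true_and]
    rintro (u | o | o | c | t)
    · refine ⟨.inl (u, α u), ⟨rfl, rfl⟩, ?_⟩
      rintro (⟨u', b⟩ | p | t) ⟨h3, h4⟩
      · obtain rfl : u' = u := h4
        obtain rfl : b = α u' := h3
        rfl
      · exact h4.elim
      · exact h4.elim
    · refine ⟨.inr (.inl (o, κ o)), ⟨rfl, rfl⟩, ?_⟩
      rintro (p | ⟨o', k⟩ | t) ⟨h3, h4⟩
      · exact h4.elim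
      · obtain rfl : o' = o := h4
        obtain rfl : k = κ o' := h3
        rfl
      · exact h4.elim
    · by_cases hc : α (vr o) = sg o
      · refine ⟨.inr (.inl (o, κ o)), ⟨rfl, rfl, fun e => (k0 o).1 e hc⟩, ?_⟩
        rintro (⟨u, b⟩ | ⟨o', k⟩ | t) ⟨h3, h4⟩
        · obtain ⟨h5, h6⟩ := h4
          simp only at h5 h6
          obtain rfl : b = α u := h3
          exact absurd (h5 ▸ hc).symm h6
        · obtain rfl : o' = o := h4.1
          obtain rfl : k = κ o' := h3
          rfl
        · exact h4.elim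
      · refine ⟨.inl (vr o, α (vr o)), ⟨rfl, rfl, fun e => hc e.symm⟩, ?_⟩
        rintro (⟨u, b⟩ | ⟨o', k⟩ | t) ⟨h3, h4⟩
        · obtain rfl : vr o = u := h4.1
          obtain rfl : b = α (vr o) := h3
          rfl
        · obtain rfl : o' = o := h4.1
          obtain rfl : k = κ o' := h3
          exact absurd ((k0 o').2 hc) h4.2
        · exact h4.elim
    · refine ⟨.inr (.inl (ch c, κ (ch c))), ⟨rfl, (k2 _ _).2 rfl⟩, ?_⟩
      rintro (p | ⟨o', k⟩ | t) ⟨h3, h4⟩
      · exact h4.elim
      · obtain rfl : k = κ o' := h3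
        obtain rfl := (k2 _ _).1 h4
        rfl
      · exact h4.elim
    · by_cases hc : α (z t) = true
      · refine ⟨.inr (.inr t), ⟨hc, rfl⟩, ?_⟩
        rintro (⟨u, b⟩ | p | t') ⟨h3, h4⟩
        · obtain ⟨h5, h6⟩ := h4
          simp only at h5 h6
          obtain rfl : b = α u := h3
          rw [← h5, hc] at h6
          cases h6
        · exact h4.elim
        · obtain rfl : t' = t := h4
          rfl
      · refine ⟨.inl (z t, α (z t)), ⟨rfl, rfl, by simpa using hc⟩, ?_⟩
        rintro (⟨u, b⟩ | p | t') ⟨h3, h4⟩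
        · obtain rfl : z t = u := h4.1
          obtain rfl : b = α (z t) := h3
          rfl
        · exact h4.elim
        · obtain rfl : t' = t := h4
          exact absurd h3 hc
  · rw [card_split, cost, Finset.card_filter]
    simp [P]
  · intro hs
    exact ⟨.inl (s, true), ⟨by simp [P, hs], rfl⟩, fun x hx => hx.2⟩

theorem cover_iff :
    (∃ A : Finset (T0 U O Tg), Exact (inc0 cl vr sg z) A ∧ (∃! x, x ∈ A ∧ lt0 s x) ∧
      ∀ A', Exact (inc0 cl vr sg z) A' → A.card ≤ A'.card) ↔
    ∃ α, SatU cl vr sg α ∧ α s = true ∧ ∀ β, SatU cl vr sg β → cost z α ≤ cost z β := by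
  constructor
  · rintro ⟨A, h1, h2, h3⟩
    obtain ⟨α, a1, a2, a3⟩ := cover_sound cl vr sg z s h1
    refine ⟨α, a1, a3 h2, fun β hβ => ?_⟩
    obtain ⟨B, b1, b2, -⟩ := cover_complete cl vr sg z s hβ
    have := h3 B b1
    omega
  · rintro ⟨α, h1, h2, h3⟩
    obtain ⟨A, a1, a2, a3⟩ := cover_complete cl vr sg z s h1
    refine ⟨A, a1, a3 h2, fun B hB => ?_⟩
    obtain ⟨β, b1, b2, -⟩ := cover_sound cl vr sg z s hB
    have := h3 β b1
    omega

theorem pr_cnf [Fintype Cl] (q : Prop) (M : ℕ) (h0 : ∃ α, SatU cl vr sg α)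
    (hM : 2 * Fintype.card (T0 U O Tg) + 3 < M) :
    PerfectRoman (gr q (inc1 (inc0 cl vr sg z) (lt0 s) M) M) ↔
      ∃ α, SatU cl vr sg α ∧ α s = true ∧ ∀ β, SatU cl vr sg β → cost z α ≤ cost z β := by
  obtain ⟨α, hα⟩ := h0
  obtain ⟨A, a1, -, -⟩ := cover_complete cl vr sg z s hα
  have : Nonempty (E0 U O Cl Tg) := ⟨.inl s⟩
  have := Finset.card_le_univ A
  rw [pr_gr1 _ _ M q A a1 (by omega), cover_iff]

end Pool.Agent.Work.MP_4489ea_co
end

-- merged part: Pool.Agent.Work.MP_4489ea_co.Lists
section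
/-!
Listing the vertices of structured finite graphs by codes.
-/

namespace Pool.Agent.Work.MP_4489ea_co

/-- `l` lists the codes of all members of `W`, each member once. -/
def Lists {W C : Type} (c : W → C) (l : List C) : Prop :=
  ∃ ws : List W, ws.Nodup ∧ (∀ w, w ∈ ws) ∧ ws.map c = l

namespace Lists

variable {A B C D C' : Type}

theorem fin (n : ℕ) (f : ℕ → C) : Lists (fun i : Fin n => f i.val) ((List.range n).map f) :=
  ⟨List.finRange n, List.nodup_finRange n, List.mem_finRange, by
    rw [← List.map_coe_finRange_eq_range, List.map_map]; rfl⟩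

theorem bool (f : Bool → C) : Lists f [f false, f true] :=
  ⟨[false, true], by simp, by simp, rfl⟩

theorem sum {c : A ⊕ B → C} {l1 l2 : List C} (h1 : Lists (fun a => c (.inl a)) l1)
    (h2 : Lists (fun b => c (.inr b)) l2) : Lists c (l1 ++ l2) := by
  obtain ⟨w1, a1, a2, rfl⟩ := h1
  obtain ⟨w2, b1, b2, rfl⟩ := h2
  refine ⟨w1.map .inl ++ w2.map .inr, ?_, ?_, ?_⟩
  · refine List.Nodup.append (a1.map Sum.inl_injective) (b1.map Sum.inr_injective) ?_
    simp [List.disjoint_left]
  · rintro (a | b)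
    · simp [a2]
    · simp [b2]
  · simp [Function.comp_def]

theorem option {c : Option A → C} {l : List C} (h : Lists (fun a => c (some a)) l) :
    Lists c (c none :: l) := by
  obtain ⟨w1, a1, a2, rfl⟩ := h
  refine ⟨none :: w1.map some, ?_, ?_, ?_⟩
  · exact List.nodup_cons.2 ⟨by simp, a1.map (Option.some_injective _)⟩
  · rintro (_ | a)
    · simp
    · simp [a2]
  · simp [Function.comp_def]

theorem prod {c1 : A → C} {c2 : B → D} {l1 : List C} {l2 : List D} (h1 : Lists c1 l1)
    (h2 : Lists c2 l2) (f : C → D → C') :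
    Lists (fun p : A × B => f (c1 p.1) (c2 p.2)) (l1.flatMap fun x => l2.map (f x)) := by
  obtain ⟨w1, a1, a2, rfl⟩ := h1
  obtain ⟨w2, b1, b2, rfl⟩ := h2
  refine ⟨w1 ×ˢ w2, a1.product b1, fun p => List.mem_product.2 ⟨a2 _, b2 _⟩, ?_⟩
  simp [SProd.sprod, List.product, List.map_flatMap, List.flatMap_map, Function.comp_def]

theorem map {c : A → C} {l : List C} (h : Lists c l) (f : C → D) :
    Lists (fun a => f (c a)) (l.map f) := by
  obtain ⟨w1, a1, a2, rfl⟩ := h
  exact ⟨w1, a1, a2, by simp [Function.comp_def]⟩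

theorem range (n : ℕ) : Lists (fun i : Fin n => i.val) (List.range n) := by
  simpa using fin n id

theorem card [Fintype A] {c : A → C} {l : List C} (h : Lists c l) : Fintype.card A = l.length := by
  classical
  obtain ⟨w1, a1, a2, rfl⟩ := h
  rw [List.length_map, ← List.toFinset_card_of_nodup a1]
  exact congrArg Finset.card (by ext; simp [a2])

theorem exists_graph {c : A → C} {l : List C} (h : Lists c l) (H : SimpleGraph A)
    (adjB : C → C → Bool) (hadj : ∀ u v, adjB (c u) (c v) = true ↔ H.Adj u v) :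
    ∃ (n : ℕ) (G : SimpleGraph (Fin n)), Nonempty (G ≃g H) ∧
      code G = l.flatMap fun u => l.map (adjB u) := by
  classical
  obtain ⟨ws, a1, a2, rfl⟩ := h
  let e := List.Nodup.getEquivOfForallMemList ws a1 a2
  refine ⟨ws.length, H.comap e, ⟨SimpleGraph.Iso.comap e H⟩, ?_⟩
  have hw : ws = (List.finRange ws.length).map e := (List.map_get_finRange ws).symm
  conv_rhs => rw [hw]
  simp only [code, List.map_map, List.flatMap_map, SimpleGraph.comap_adj]
  refine List.flatMap_congr fun i _ => List.map_congr_left fun j _ => ?_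
  rw [Bool.eq_iff_iff, decide_eq_true_eq]
  exact (hadj _ _).symm

end Lists

section star

variable {E T C : Type} [DecidableEq C]

/-- The code of a position in a star. -/
def cR {M : ℕ} : Option (Option (Fin M)) → ℕ
  | none => 1
  | some none => 2
  | some (some l) => l.val + 3

/-- Codes of the vertices. -/
def cV {M : ℕ} (cE : E → C) (cT : T → C) : Vx E T M → ℕ × C
  | .inl e => (0, cE e)
  | .inr p => (cR p.2, cT p.1)

/-- The list of vertex codes. -/
def lV (M : ℕ) (lE lT : List C) : List (ℕ × C) :=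
  lE.map (fun e => (0, e)) ++
    lT.flatMap fun x => (1 :: 2 :: (List.range M).map fun l => l + 3).map fun r => (r, x)

/-- Adjacency of vertex codes. -/
def adjB (q : Bool) (incB : C → C → Bool) (u v : ℕ × C) : Bool :=
  decide ((u.1 = 0 ∧ v.1 = 0 ∧ q = true ∧ u.2 ≠ v.2) ∨ (u.1 = 0 ∧ v.1 = 1 ∧ incB v.2 u.2 = true) ∨
    (u.1 = 1 ∧ v.1 = 0 ∧ incB u.2 v.2 = true) ∨
    (u.1 ≠ 0 ∧ v.1 ≠ 0 ∧ u.2 = v.2 ∧ u.1 ≠ v.1 ∧ (u.1 = 2 ∨ v.1 = 2)))

theorem star_graph (q : Bool) (inc : T → E → Prop) (M : ℕ) {cE : E → C} {cT : T → C}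
    (hE : Function.Injective cE) (hT : Function.Injective cT) {lE lT : List C}
    (h1 : Lists cE lE) (h2 : Lists cT lT) (incB : C → C → Bool)
    (hinc : ∀ s e, incB (cT s) (cE e) = true ↔ inc s e) :
    ∃ (n : ℕ) (G : SimpleGraph (Fin n)), Nonempty (G ≃g gr (q = true) inc M) ∧
      code G = (lV M lE lT).flatMap fun u => (lV M lE lT).map (adjB q incB u) := by
  have h3 : Lists (cR (M := M)) (1 :: 2 :: (List.range M).map fun l => l + 3) :=
    Lists.option (c := cR) (Lists.option (c := fun a => cR (some a)) (Lists.fin M fun l => l + 3))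
  have h4 : Lists (cV (M := M) cE cT) (lV M lE lT) :=
    Lists.sum (h1.map fun e => (0, e)) (h2.prod h3 fun x r => (r, x))
  refine h4.exists_graph _ _ ?_
  rintro (e | ⟨s, _ | _ | l⟩) (e' | ⟨s', _ | _ | l'⟩) <;>
    simp [adjB, cV, cR, gr, adj, hinc, hE.eq_iff, hT.eq_iff]

/-- Codes of the repeated elements. -/
def cE1 {M : ℕ} (d : C) (cE : E → C) : E1 E M → C × ℕ × ℕ
  | none => (d, 3, 0)
  | some p => (cE p.1, p.2.1.val, p.2.2.val)

/-- Codes of the enlarged family of sets. -/
def cT1 {M : ℕ} (d : C) (cT : T → C) : T1 T M → C × ℕ × ℕ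
  | .inl s => (cT s, 2, 0)
  | .inr p => (d, p.1.val, p.2.val)

/-- The list of codes of repeated elements. -/
def lE1 (M : ℕ) (d : C) (lE : List C) : List (C × ℕ × ℕ) :=
  (d, 3, 0) :: lE.flatMap fun e =>
    ((List.range 3).flatMap fun a => (List.range M).map fun k => (a, k)).map fun p => (e, p)

/-- The list of codes of the enlarged family. -/
def lT1 (M : ℕ) (d : C) (lT : List C) : List (C × ℕ × ℕ) :=
  lT.map (fun s => (s, 2, 0)) ++
    (List.range 2).flatMap fun a => (List.range M).map fun k => (d, a, k)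

/-- Incidence of codes. -/
def incB1 (y : C) (incB : C → C → Bool) (x e : C × ℕ × ℕ) : Bool :=
  if x.2.1 = 2 then (if e.2.1 = 3 then decide (x.1 = y) else incB x.1 e.1)
  else decide (x.2.1 ≠ e.2.1)

theorem heavy_graph (q : Bool) (inc : T → E → Prop) (lt : T → Prop) (M : ℕ) (d y : C)
    {cE : E → C} {cT : T → C}
    (hE : Function.Injective cE) (hT : Function.Injective cT) {lE lT : List C}
    (h1 : Lists cE lE) (h2 : Lists cT lT) (incB : C → C → Bool)
    (hinc : ∀ s e, incB (cT s) (cE e) = true ↔ inc s e) (hlt : ∀ s, cT s = y ↔ lt s) :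
    ∃ (n : ℕ) (G : SimpleGraph (Fin n)), Nonempty (G ≃g gr (q = true) (inc1 inc lt M) M) ∧
      code G = (lV M (lE1 M d lE) (lT1 M d lT)).flatMap fun u =>
        (lV M (lE1 M d lE) (lT1 M d lT)).map (adjB q (incB1 y incB) u) := by
  refine star_graph q _ M (cE := cE1 d cE) (cT := cT1 d cT) ?_ ?_ ?_ ?_ _ ?_
  · rintro (_ | ⟨e, a, k⟩) (_ | ⟨e', a', k'⟩) h
    · rfl
    · simp only [cE1, Prod.mk.injEq] at h; omega
    · simp only [cE1, Prod.mk.injEq] at h; omega
    · simpa [cE1, hE.eq_iff, Fin.val_inj] using h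
  · rintro (s | ⟨a, k⟩) (s' | ⟨a', k'⟩) h
    · simpa [cT1, hT.eq_iff] using h
    · simp only [cT1, Prod.mk.injEq] at h; omega
    · simp only [cT1, Prod.mk.injEq] at h; omega
    · simpa [cT1, Fin.val_inj] using h
  · exact Lists.option (c := cE1 d cE)
      (h1.prod ((Lists.range 3).prod (Lists.range M) fun a k => (a, k)) fun e p => (e, p))
  · exact Lists.sum (h2.map fun s => (s, 2, 0))
      ((Lists.range 2).prod (Lists.range M) fun a k => (d, a, k))
  · rintro (s | ⟨a, k⟩) (_ | ⟨e', a', k'⟩)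
    · simp [incB1, cT1, cE1, inc1, hlt]
    · have : a'.val ≠ 3 := by omega
      simp [incB1, cT1, cE1, inc1, hinc, this]
    · have : a.val ≠ 2 := by omega
      have : a.val ≠ 3 := by omega
      simp [incB1, cT1, cE1, inc1, *]
    · have : a.val ≠ 2 := by omega
      simp [incB1, cT1, cE1, inc1, this]

end star

end Pool.Agent.Work.MP_4489ea_co
end

-- merged part: Pool.Agent.Work.MP_4489ea_co.Red
section
/-!
The polynomial-time map from formulas with costly variables to graph codes.
-/

namespace Pool.Agent.Work.MP_4489ea_co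

open Pool.Agent.Lib.Poly

/-- Codes of elements and sets. -/
abbrev C0 : Type := ℕ × ℕ × ℕ × ℕ

/-- The literal at position `i` of clause `c`. -/
def lit (F : Cnf) (c i : ℕ) : ℕ × Bool := (F.getD c []).getD i (0, false)

/-- The number of variables. -/
def nv (F : Cnf) (K : ℕ) : ℕ := sz F + K + 1

theorem lit_lt (F : Cnf) (K c i : ℕ) : (lit F c i).1 < nv F K := by
  have h1 : sz (F.getD c []) ≤ sz F := by
    rw [List.getD_eq_getElem?_getD]
    cases h : F[c]? with
    | none => simp
    | some x => exact sz_le_of_mem (List.mem_of_getElem? h)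
  have h2 : (lit F c i).1 ≤ sz (F.getD c []) := by
    rw [lit, List.getD_eq_getElem?_getD]
    cases h : (F.getD c [])[i]? with
    | none => simp
    | some x => exact (sz_nat x.1 ▸ sz_fst_le x).trans (sz_le_of_mem (List.mem_of_getElem? h))
  unfold nv
  omega

/-- Codes of elements. -/
def cE0 {a m K : ℕ} : E0 (Fin a) (Fin m × Fin 5) (Fin m) (Fin K) → C0
  | .inl u => (0, u.val, 0, 0)
  | .inr (.inl o) => (1, o.1.val, o.2.val, 0)
  | .inr (.inr (.inl o)) => (2, o.1.val, o.2.val, 0)
  | .inr (.inr (.inr (.inl c))) => (3, c.val, 0, 0)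
  | .inr (.inr (.inr (.inr t))) => (4, t.val, 0, 0)

/-- Codes of sets. -/
def cT0 {a m K : ℕ} : T0 (Fin a) (Fin m × Fin 5) (Fin K) → C0
  | .inl p => (0, p.1.val, 0, p.2.toNat)
  | .inr (.inl p) => (1, p.1.1.val, p.1.2.val, p.2.val)
  | .inr (.inr t) => (2, t.val, 0, 0)

/-- The list of element codes. -/
def lE0 (a m K : ℕ) : List C0 :=
  (List.range a).map (fun u => (0, u, 0, 0)) ++
    (((List.range m).flatMap fun c => (List.range 5).map fun i => (1, c, i, 0)) ++
      (((List.range m).flatMap fun c => (List.range 5).map fun i => (2, c, i, 0)) ++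
        ((List.range m).map (fun c => (3, c, 0, 0)) ++ (List.range K).map fun t => (4, t, 0, 0))))

/-- The list of set codes. -/
def lT0 (a m K : ℕ) : List C0 :=
  ((List.range a).flatMap fun u => [0, 1].map fun b => (0, u, 0, b)) ++
    ((((List.range m).flatMap fun c => (List.range 5).map fun i => (c, i)).flatMap fun o =>
      (List.range 3).map fun k => (1, o.1, o.2, k)) ++ (List.range K).map fun t => (2, t, 0, 0))

theorem lists_E0 (a m K : ℕ) : Lists (cE0 (a := a) (m := m) (K := K)) (lE0 a m K) :=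
  (Lists.fin a fun u => (0, u, 0, 0)).sum
    (((Lists.range m).prod (Lists.range 5) fun c i => (1, c, i, 0)).sum
      (((Lists.range m).prod (Lists.range 5) fun c i => (2, c, i, 0)).sum
        ((Lists.fin m fun c => (3, c, 0, 0)).sum (Lists.fin K fun t => (4, t, 0, 0)))))

theorem lists_T0 (a m K : ℕ) : Lists (cT0 (a := a) (m := m) (K := K)) (lT0 a m K) :=
  ((Lists.range a).prod (Lists.bool Bool.toNat) fun u b => (0, u, 0, b)).sum
    ((((Lists.range m).prod (Lists.range 5) fun c i => (c, i)).prod (Lists.range 3)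
      fun o k => (1, o.1, o.2, k)).sum (Lists.fin K fun t => (2, t, 0, 0)))

/-- Incidence of codes. -/
def incB0 (F : Cnf) (x e : C0) : Bool :=
  decide ((x.1 = 0 ∧ e.1 = 0 ∧ x.2.1 = e.2.1) ∨
    (x.1 = 0 ∧ e.1 = 2 ∧ (lit F e.2.1 e.2.2.1).1 = x.2.1 ∧ (lit F e.2.1 e.2.2.1).2.toNat ≠ x.2.2.2) ∨
    (x.1 = 0 ∧ e.1 = 4 ∧ e.2.1 + 1 = x.2.1 ∧ x.2.2.2 = 0) ∨
    (x.1 = 1 ∧ e.1 = 1 ∧ x.2.1 = e.2.1 ∧ x.2.2.1 = e.2.2.1) ∨
    (x.1 = 1 ∧ e.1 = 2 ∧ (x.2.1 = e.2.1 ∧ x.2.2.1 = e.2.2.1) ∧ x.2.2.2 ≠ 0) ∨
    (x.1 = 1 ∧ e.1 = 3 ∧ x.2.1 = e.2.1 ∧ x.2.2.2 = 2) ∨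
    (x.1 = 2 ∧ e.1 = 4 ∧ x.2.1 = e.2.1))

/-- The multiplicity. -/
def bigM (F : Cnf) (K : ℕ) : ℕ := 2 * (lT0 (nv F K) F.length K).length + 4

/-- The list of vertex codes. -/
def verts (F : Cnf) (K : ℕ) : List (ℕ × C0 × ℕ × ℕ) :=
  lV (bigM F K) (lE1 (bigM F K) (0, 0, 0, 0) (lE0 (nv F K) F.length K))
    (lT1 (bigM F K) (0, 0, 0, 0) (lT0 (nv F K) F.length K))

/-- The reduction. -/
def red (q : Bool) (F : Cnf) (K : ℕ) : List Bool :=
  (verts F K).flatMap fun u => (verts F K).map (adjB q (incB1 (0, 0, 0, 1) (incB0 F)) u)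

theorem pt_verts : PT fun p : Cnf × ℕ => verts p.1 p.2 := by
  have h1 : PT fun p : Cnf × ℕ => nv p.1 p.2 := by unfold nv; fun_prop
  have h2 : PT fun p : Cnf × ℕ => lT0 (nv p.1 p.2) p.1.length p.2 := by unfold lT0; fun_prop
  have h3 : PT fun p : Cnf × ℕ => lE0 (nv p.1 p.2) p.1.length p.2 := by unfold lE0; fun_prop
  have h4 : PT fun p : Cnf × ℕ => bigM p.1 p.2 := by unfold bigM; fun_prop
  unfold verts lV lE1 lT1
  fun_prop

theorem pt_incB0 : PT fun p : Cnf × C0 × C0 => incB0 p.1 p.2.1 p.2.2 := by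
  have h1 : PT fun p : Cnf × C0 × C0 => lit p.1 p.2.2.2.1 p.2.2.2.2.1 := by unfold lit; fun_prop
  unfold incB0
  fun_prop

theorem pt_incB1 : PT fun p : Cnf × (C0 × ℕ × ℕ) × C0 × ℕ × ℕ =>
    incB1 (0, 0, 0, 1) (incB0 p.1) p.2.1 p.2.2 := by
  have h1 : PT fun p : Cnf × (C0 × ℕ × ℕ) × C0 × ℕ × ℕ => incB0 p.1 p.2.1.1 p.2.2.1 :=
    pt_incB0.comp (g := fun p : Cnf × (C0 × ℕ × ℕ) × C0 × ℕ × ℕ => (p.1, p.2.1.1, p.2.2.1))
      (by fun_prop)
  unfold incB1
  fun_prop

theorem pt_adjB (q : Bool) : PT fun p : Cnf × (ℕ × C0 × ℕ × ℕ) × ℕ × C0 × ℕ × ℕ =>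
    adjB q (incB1 (0, 0, 0, 1) (incB0 p.1)) p.2.1 p.2.2 := by
  have h1 : PT fun p : Cnf × (ℕ × C0 × ℕ × ℕ) × ℕ × C0 × ℕ × ℕ =>
      incB1 (0, 0, 0, 1) (incB0 p.1) p.2.1.2 p.2.2.2 :=
    pt_incB1.comp (g := fun p : Cnf × (ℕ × C0 × ℕ × ℕ) × ℕ × C0 × ℕ × ℕ => (p.1, p.2.1.2, p.2.2.2))
      (by fun_prop)
  have h2 : PT fun p : Cnf × (ℕ × C0 × ℕ × ℕ) × ℕ × C0 × ℕ × ℕ =>
      incB1 (0, 0, 0, 1) (incB0 p.1) p.2.2.2 p.2.1.2 :=
    pt_incB1.comp (g := fun p : Cnf × (ℕ × C0 × ℕ × ℕ) × ℕ × C0 × ℕ × ℕ => (p.1, p.2.2.2, p.2.1.2))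
      (by fun_prop)
  unfold adjB
  fun_prop

theorem pt_red (q : Bool) : PT fun p : Cnf × ℕ => red q p.1 p.2 := by
  unfold red
  refine PT.flatMap (PT.map ?_ (pt_verts.comp PT.fst')) pt_verts
  exact (pt_adjB q).comp
    (g := fun z : ((Cnf × ℕ) × ℕ × C0 × ℕ × ℕ) × ℕ × C0 × ℕ × ℕ => (z.1.1.1, z.1.2, z.2))
    (by fun_prop)

/-- The number of true costly variables `1, …, K`. -/
def costN (K : ℕ) (α : ℕ → Bool) : ℕ := (List.range K).countP fun t => α (t + 1)

theorem red_spec (q : Bool) (F : Cnf) (K : ℕ) (h5 : ∀ c ∈ F, c.length = 5) (h0 : ∃ α, Sat α F) :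
    ∃ (n : ℕ) (G : SimpleGraph (Fin n)), red q F K = code G ∧ G.Connected ∧
      (q = false → G.Colorable 2) ∧ (q = true → Chordal G) ∧
      (PerfectRoman G ↔
        ∃ α, Sat α F ∧ α 0 = true ∧ ∀ β, Sat β F → costN K α ≤ costN K β) := by
  let cl : Fin F.length × Fin 5 → Fin F.length := fun o => o.1
  let vr : Fin F.length × Fin 5 → Fin (nv F K) := fun o => ⟨_, lit_lt F K o.1 o.2⟩
  let sg : Fin F.length × Fin 5 → Bool := fun o => (lit F o.1 o.2).2
  let z : Fin K → Fin (nv F K) := fun t => ⟨t + 1, by unfold nv; omega⟩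
  let s : Fin (nv F K) := ⟨0, by unfold nv; omega⟩
  obtain ⟨n, G, ⟨e⟩, hG⟩ := heavy_graph q (inc0 cl vr sg z) (lt0 s) (bigM F K) (0, 0, 0, 0)
    (0, 0, 0, 1) (cE := cE0) (cT := cT0) (by
      rintro (u | ⟨c, i⟩ | ⟨c, i⟩ | c | t) (u' | ⟨c', i'⟩ | ⟨c', i'⟩ | c' | t') <;>
        simp [cE0, Fin.val_inj]) (by
      rintro (⟨u, _ | _⟩ | ⟨⟨c, i⟩, k⟩ | t) (⟨u', _ | _⟩ | ⟨⟨c', i'⟩, k'⟩ | t') <;>
        simp [cT0, Fin.val_inj, and_assoc])
    (lists_E0 _ _ _) (lists_T0 _ _ _) (incB0 F) (by
      rintro (⟨u, b⟩ | ⟨⟨c, i⟩, k⟩ | t) (u' | ⟨c', i'⟩ | ⟨c', i'⟩ | c' | t') <;>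
        simp [incB0, cT0, cE0, inc0, ← Fin.val_inj, cl, vr, sg, z, -Fin.val_eq_zero_iff]
      intro _
      cases b <;> cases (lit F c' i').2 <;> simp) (by
      rintro (⟨u, _ | _⟩ | ⟨⟨c, i⟩, k⟩ | t) <;>
        simp [cT0, lt0, s, ← Fin.val_inj, -Fin.val_eq_zero_iff])
  have sat : ∀ α : ℕ → Bool, SatU cl vr sg (fun u => α u.val) ↔ Sat α F := by
    intro α
    constructor
    · intro h c hc
      obtain ⟨j, hj, rfl⟩ := List.mem_iff_getElem.1 hc
      obtain ⟨⟨c', i⟩, h1, h2⟩ := h ⟨j, hj⟩
      obtain rfl : c' = ⟨j, hj⟩ := h1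
      refine ⟨lit F j i, ?_, h2⟩
      have := h5 _ hc
      rw [lit, List.getD_eq_getElem _ _ hj, List.getD_eq_getElem _ _ (by omega)]
      exact List.getElem_mem _
    · intro h c
      obtain ⟨l, h1, h2⟩ := h _ (List.getElem_mem c.2)
      obtain ⟨i, hi, rfl⟩ := List.mem_iff_getElem.1 h1
      have := h5 _ (List.getElem_mem c.2)
      refine ⟨(c, ⟨i, by omega⟩), rfl, ?_⟩
      simp only [vr, sg, lit]
      rw [List.getD_eq_getElem _ _ c.2, List.getD_eq_getElem _ _ hi]
      exact h2
  have cst : ∀ α : ℕ → Bool, cost z (fun u => α u.val) = costN K α := by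
    intro α
    rw [cost, costN, ← List.map_coe_finRange_eq_range, List.countP_map,
      List.countP_eq_length_filter, ← List.toFinset_card_of_nodup
        ((List.nodup_finRange K).filter _)]
    exact congrArg Finset.card (by ext t; simp [z])
  have ext : ∀ β : Fin (nv F K) → Bool, ∃ α : ℕ → Bool, β = fun u => α u.val := fun β =>
    ⟨fun u => if h : u < nv F K then β ⟨u, h⟩ else false, by funext u; simp⟩
  refine ⟨n, G, hG.symm, ?_, ?_, ?_, ?_⟩
  · exact e.connected_iff.2 (gr1_connected _ _ _ _ (by unfold bigM; omega) (inc0_nonempty _ _ _ _))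
  · rintro rfl
    have := gr_bipartite (inc1 (inc0 cl vr sg z) (lt0 s) (bigM F K)) (bigM F K)
    rw [show (false = true) = False by simp] at e
    exact this.of_hom e.toHom
  · rintro rfl
    rw [show (true = true) = True by simp] at e
    exact chordal_of_iso e (gr_chordal _ _)
  · obtain ⟨α0, h0⟩ := h0
    rw [pr_iso e, pr_cnf cl vr sg z s _ _ ⟨_, (sat α0).2 h0⟩ (by
      rw [(lists_T0 _ _ _).card, bigM]; omega)]
    constructor
    · rintro ⟨β, h1, h2, h3⟩
      obtain ⟨α, rfl⟩ := ext β
      refine ⟨α, (sat α).1 h1, h2, fun γ hγ => ?_⟩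
      rw [← cst, ← cst]
      exact h3 _ ((sat γ).2 hγ)
    · rintro ⟨α, h1, h2, h3⟩
      refine ⟨_, (sat α).2 h1, h2, fun β hβ => ?_⟩
      obtain ⟨γ, rfl⟩ := ext β
      rw [cst, cst]
      exact h3 _ ((sat γ).1 hβ)

end Pool.Agent.Work.MP_4489ea_co
end

-- merged part: Pool.Agent.Work.MP_4489ea_co.Hard
section
/-!
Hardness: the census technique, and the combination of many formulas with one switch.
-/

namespace Pool.Agent.Work.MP_4489ea_co

open Pool.Agent.Lib.Poly N68a2faeb

/-- All formulas on disjoint variables; formula `t` may be switched off by the costly variable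
`t + 1` or by the value `side t` of the variable `0`. -/
def comb (K : ℕ) (side : ℕ → Bool) (φ : ℕ → Cnf) : Cnf :=
  (List.range K).flatMap fun t => (φ t).map fun c =>
    (c.map fun l => (K + 1 + Nat.pair t l.1, l.2)) ++ [(t + 1, true), (0, side t)]

open Classical in
/-- The number of unsatisfiable formulas that are not switched off by the value `b`. -/
noncomputable def uns (K : ℕ) (side : ℕ → Bool) (φ : ℕ → Cnf) (b : Bool) : ℕ :=
  (List.range K).countP fun t => decide (side t ≠ b ∧ ¬ ∃ A, Sat A (φ t))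

section comb

variable (K : ℕ) (side : ℕ → Bool) (φ : ℕ → Cnf)

theorem sat_comb (α : ℕ → Bool) : Sat α (comb K side φ) ↔ ∀ t < K, ∀ c ∈ φ t,
    (∃ l ∈ c, α (K + 1 + Nat.pair t l.1) = l.2) ∨ α (t + 1) = true ∨ α 0 = side t := by
  simp only [Sat, comb, List.mem_flatMap, List.mem_range, List.mem_map]
  constructor
  · intro h t ht c hc
    obtain ⟨l, h1, h2⟩ := h _ ⟨t, ht, c, hc, rfl⟩
    simp only [List.mem_append, List.mem_map, List.mem_cons, List.not_mem_nil, or_false] at h1
    rcases h1 with ⟨l', h3, rfl⟩ | rfl | rfl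
    · exact Or.inl ⟨l', h3, h2⟩
    · exact Or.inr (Or.inl h2)
    · exact Or.inr (Or.inr h2)
  · rintro h _ ⟨t, ht, c, hc, rfl⟩
    rcases h t ht c hc with ⟨l, h1, h2⟩ | h1 | h1
    · exact ⟨_, List.mem_append_left _ (List.mem_map_of_mem h1), h2⟩
    · exact ⟨(t + 1, true), by simp, h1⟩
    · exact ⟨(0, side t), by simp, h1⟩

theorem comb_lower (α : ℕ → Bool) (h : Sat α (comb K side φ)) :
    uns K side φ (α 0) ≤ costN K α := by
  rw [sat_comb] at h
  refine List.countP_mono_left fun t ht h1 => ?_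
  simp only [decide_eq_true_eq] at h1
  by_contra hc
  refine h1.2 ⟨fun v => α (K + 1 + Nat.pair t v), fun c hc' => ?_⟩
  rcases h t (List.mem_range.1 ht) c hc' with h2 | h2 | h2
  · exact h2
  · exact absurd h2 hc
  · exact absurd h2.symm h1.1

theorem comb_exists (b : Bool) :
    ∃ α, Sat α (comb K side φ) ∧ α 0 = b ∧ costN K α = uns K side φ b := by
  classical
  have : ∀ t, ∃ A : ℕ → Bool, (∃ A, Sat A (φ t)) → Sat A (φ t) := by
    intro t
    by_cases h : ∃ A, Sat A (φ t)
    · obtain ⟨A, hA⟩ := h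
      exact ⟨A, fun _ => hA⟩
    · exact ⟨fun _ => false, fun h' => absurd h' h⟩
  choose A hA using this
  let α : ℕ → Bool := fun v => if v = 0 then b else if v ≤ K then
    decide (side (v - 1) ≠ b ∧ ¬ ∃ A, Sat A (φ (v - 1)))
    else A (v - (K + 1)).unpair.1 (v - (K + 1)).unpair.2
  have a0 : α 0 = b := by simp [α]
  have a1 : ∀ t < K, α (t + 1) = decide (side t ≠ b ∧ ¬ ∃ A, Sat A (φ t)) := by
    intro t ht
    simp only [α]
    rw [if_neg (by omega), if_pos (by omega)]
    rfl
  have a2 : ∀ t v, α (K + 1 + Nat.pair t v) = A t v := by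
    intro t v
    simp only [α]
    rw [if_neg (by omega), if_neg (by omega), Nat.add_sub_cancel_left, Nat.unpair_pair]
  refine ⟨α, ?_, a0, List.countP_congr fun t ht => by rw [a1 t (List.mem_range.1 ht)]⟩
  rw [sat_comb]
  intro t ht c hc
  by_cases h : ∃ A, Sat A (φ t)
  · obtain ⟨l, h1, h2⟩ := hA t h c hc
    exact Or.inl ⟨l, h1, by rw [a2, h2]⟩
  · right
    rw [a0, a1 t ht]
    by_cases h' : b = side t
    · exact Or.inr h'
    · exact Or.inl (decide_eq_true ⟨fun e => h' e.symm, h⟩)

theorem comb_iff : (∃ α, Sat α (comb K side φ) ∧ α 0 = true ∧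
      ∀ β, Sat β (comb K side φ) → costN K α ≤ costN K β) ↔
    uns K side φ true ≤ uns K side φ false := by
  constructor
  · rintro ⟨α, h1, h2, h3⟩
    obtain ⟨β, b1, -, b3⟩ := comb_exists K side φ false
    have := comb_lower K side φ α h1
    have := h3 β b1
    rw [h2] at *
    omega
  · intro h
    obtain ⟨α, a1, a2, a3⟩ := comb_exists K side φ true
    refine ⟨α, a1, a2, fun β hβ => ?_⟩
    have := comb_lower K side φ β hβ
    cases hb : β 0 <;> rw [hb] at this <;> omega

theorem comb_length (h : ∀ t, ∀ c ∈ φ t, c.length = 3) : ∀ c ∈ comb K side φ, c.length = 5 := by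
  simp only [comb, List.mem_flatMap, List.mem_range, List.mem_map]
  rintro _ ⟨t, -, c, hc, rfl⟩
  simp [h t c hc]

end comb

theorem map_eq_of_count {ι : Type} (l : List ι) (P Q : ι → Bool)
    (h : ∀ i ∈ l, P i = true → Q i = true) (hc : l.countP Q ≤ l.countP P) :
    ∀ i ∈ l, P i = Q i := by
  induction l with
  | nil => simp
  | cons a l ih =>
    have h1 := h a (by simp)
    have h2 : ∀ i ∈ l, P i = true → Q i = true := fun i hi => h i (by simp [hi])
    have h3 := List.countP_mono_left h2
    simp only [List.countP_cons] at hc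
    have h4 : P a = Q a := by
      revert h1 hc
      cases P a <;> cases Q a <;> simp
      omega
    rw [h4] at hc
    intro i hi
    rcases List.mem_cons.1 hi with rfl | hi
    · exact h4
    · exact ih h2 (by omega) i hi

open Classical in
theorem uns_split (n : ℕ) (ψ : ℕ → Bool → Cnf) (b : Bool) :
    uns (n + n) (fun t => decide (t < n)) (fun t => if t < n then ψ t true else ψ (t - n) false) b =
      (List.range n).countP fun j => decide (¬ ∃ A, Sat A (ψ j (!b))) := by
  rw [uns, List.range_add, List.countP_append, List.countP_map]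
  cases b
  · rw [List.countP_eq_zero (l := List.range n) (p := _ ∘ _) |>.2 (by simp), add_zero]
    refine List.countP_congr fun t ht => ?_
    simp [List.mem_range.1 ht]
  · rw [List.countP_eq_zero.2 (fun t ht => by simp [List.mem_range.1 ht]), zero_add]
    refine List.countP_congr fun t ht => ?_
    simp

theorem block_exists (k P : ℕ) (u : ℕ → List Bool) (h : ∀ i < k, (u i).length ≤ P) :
    ∃ w : List Bool, w.length ≤ k * P ∧ ∀ i < k, (w.drop (i * P)).take (u i).length = u i := by
  refine ⟨(List.range (k * P)).map fun z => (u (z / P)).getD (z % P) false, by simp, ?_⟩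
  intro i hi
  have h1 := h i hi
  have h2 : i * P + P ≤ k * P := by
    rw [← Nat.succ_mul]
    exact Nat.mul_le_mul_right _ hi
  refine List.ext_getElem (by simp; omega) fun j h3 h4 => ?_
  have hP : 0 < P := by omega
  have e1 : (i * P + j) / P = i := by
    rw [Nat.add_comm, Nat.add_mul_div_right _ _ hP, Nat.div_eq_of_lt (by omega), Nat.zero_add]
  have e2 : (i * P + j) % P = j := by
    rw [Nat.add_comm, Nat.add_mul_mod_self_right, Nat.mod_eq_of_lt (by omega)]
  simp [e1, e2, h4]

theorem census (L : DecisionProblem) (hL : L ∈ Theta2) :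
    ∃ (n : List Bool → ℕ) (ψ : List Bool × ℕ × Bool → Cnf), PT n ∧ PT ψ ∧
      (∀ y, ∀ c ∈ ψ y, c.length = 3) ∧
      (∀ x j, (∃ A, Sat A (ψ (x, j, false))) → ∃ A, Sat A (ψ (x, j, true))) ∧
      ∀ x, L x = true ↔
        ∀ j < n x, (∃ A, Sat A (ψ (x, j, true))) → ∃ A, Sat A (ψ (x, j, false)) := by
  obtain ⟨A, ⟨p, R, hR, hA⟩, f, g, hf, hg, hL⟩ := hL
  have pR : PT R := pt_of_tm2 hR R (fun a => a) (fun _ => rfl) fun _ => rfl
  have pf : PT f := pt_of_tm2 hf f (fun a => a) (fun _ => rfl) fun _ => rfl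
  have pg : PT g := pt_of_tm2 hg g (fun a => a) (fun _ => rfl) fun _ => rfl
  let P : List Bool → ℕ := fun x => p.eval (sz (f x))
  let bit : List Bool → List Bool → ℕ → Bool := fun x w i =>
    (List.range (p.eval ((f x).getD i []).length + 1)).any fun l =>
      R ((f x).getD i [], (w.drop (i * P x)).take l)
  let R' : (List Bool × ℕ × Bool) × List Bool → Bool := fun z =>
    decide (z.1.2.1 ≤ (List.range (f z.1.1).length).countP (bit z.1.1 z.2)) &&
      (z.1.2.2 || g (z.1.1, (List.range (f z.1.1).length).map (bit z.1.1 z.2)))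
  have pR' : PT R' := by
    simp only [R', bit, P]
    fun_prop
  obtain ⟨ψ, h1, h2, h3⟩ := cook_levin_gen R' pR' (fun y => (f y.1).length * P y.1)
    (by simp only [P]; fun_prop)
  let ans : List Bool → ℕ → Bool := fun x i => A ((f x).getD i [])
  have e1 : ∀ x, (f x).map A = (List.range (f x).length).map (ans x) := by
    intro x
    refine List.ext_getElem (by simp) fun i a1 a2 => ?_
    have : i < (f x).length := by simpa using a1
    simp [ans, this]
  have s1 : ∀ x w i, bit x w i = true → ans x i = true := by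
    intro x w i h
    simp only [bit, List.any_eq_true, List.mem_range] at h
    obtain ⟨l, a1, a2⟩ := h
    exact (hA _).2 ⟨_, by simp only [List.length_take]; omega, a2⟩
  have s2 : ∀ x, ∃ w : List Bool, w.length ≤ (f x).length * P x ∧
      ∀ i ∈ List.range (f x).length, bit x w i = ans x i := by
    intro x
    have : ∀ i, ∃ u : List Bool, u.length ≤ p.eval ((f x).getD i []).length ∧
        (ans x i = true → R ((f x).getD i [], u) = true) := by
      intro i
      by_cases h : ans x i = true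
      · obtain ⟨u, a1, a2⟩ := (hA _).1 h
        exact ⟨u, a1, fun _ => a2⟩
      · exact ⟨[], by simp, fun h' => absurd h' h⟩
    choose u a1 a2 using this
    obtain ⟨w, b1, b2⟩ := block_exists (f x).length (P x) u fun i hi => (a1 i).trans
      ((IsPoly.eval p).mono ((length_le_sz _).trans (sz_le_of_mem (by
        rw [List.getD_eq_getElem _ _ hi]; exact List.getElem_mem _))))
    refine ⟨w, b1, fun i hi => ?_⟩
    rw [Bool.eq_iff_iff]
    refine ⟨s1 x w i, fun h => ?_⟩
    simp only [bit, List.any_eq_true, List.mem_range]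
    refine ⟨(u i).length, Nat.lt_succ_of_le (a1 i), ?_⟩
    rw [b2 i (List.mem_range.1 hi)]
    exact a2 i h
  refine ⟨fun x => (f x).length + 1, ψ, by fun_prop, h1, h2, fun x j => ?_, fun x => ?_⟩
  · rw [h3, h3]
    rintro ⟨w, a1, a2⟩
    refine ⟨w, a1, ?_⟩
    simp only [R', Bool.and_eq_true, Bool.true_or, and_true] at a2 ⊢
    exact a2.1
  · simp only [h3, R', Bool.and_eq_true, Bool.true_or, and_true, Bool.false_or, decide_eq_true_eq]
    obtain ⟨w, b1, b2⟩ := s2 x
    have b3 : (List.range (f x).length).countP (bit x w) =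
        (List.range (f x).length).countP (ans x) :=
      List.countP_congr fun i hi => by rw [b2 i hi]
    rw [hL, e1]
    constructor
    · rintro h j - ⟨w', -, a2⟩
      refine ⟨w, b1, ?_, ?_⟩
      · rw [b3]
        exact a2.trans (List.countP_mono_left fun i _ => s1 x w' i)
      · rw [List.map_congr_left b2]
        exact h
    · intro h
      obtain ⟨w', -, a2, a3⟩ := h ((List.range (f x).length).countP (ans x))
        (Nat.lt_succ_of_le (List.countP_le_length.trans (by simp))) ⟨w, b1, b3.ge⟩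
      rwa [List.map_congr_left (map_eq_of_count _ _ _ (fun i _ => s1 x w' i) a2)] at a3

theorem hard (q : Bool) (L : DecisionProblem) (hL : L ∈ Theta2) :
    ∃ f : List Bool → List Bool, IsPolyTime f ∧ ∀ x, ∃ (n : ℕ) (G : SimpleGraph (Fin n)),
      f x = code G ∧ G.Connected ∧ (q = false → G.Colorable 2) ∧ (q = true → Chordal G) ∧
      (L x = true ↔ PerfectRoman G) := by
  classical
  obtain ⟨n, ψ, h1, h2, h3, h4, h5⟩ := census L hL
  let F : List Bool → Cnf := fun x => comb (n x + n x) (fun t => decide (t < n x))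
    fun t => if t < n x then ψ (x, t, true) else ψ (x, t - n x, false)
  have pF : PT F := by
    simp only [F, comb]
    fun_prop
  refine ⟨fun x => red q (F x) (n x + n x), PT.isPolyTime_list
    ((pt_red q).comp (g := fun x => (F x, n x + n x)) (by fun_prop)), fun x => ?_⟩
  obtain ⟨m, G, a1, a2, a3, a4, a5⟩ := red_spec q (F x) (n x + n x)
    (comb_length _ _ _ fun t => by split_ifs <;> exact h3 _)
    (let ⟨α, h, _⟩ := comb_exists _ _ _ true; ⟨α, h⟩)
  refine ⟨m, G, a1, a2, a3, a4, ?_⟩
  rw [a5, comb_iff, uns_split (n x) fun j b => ψ (x, j, b), uns_split (n x) fun j b => ψ (x, j, b),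
    h5]
  constructor
  · intro h
    refine List.countP_mono_left fun j hj => ?_
    simp only [decide_eq_true_eq]
    exact fun a b => a (h j (List.mem_range.1 hj) b)
  · intro h j hj b
    have := map_eq_of_count _ _ _ (fun j _ => by
      simp only [decide_eq_true_eq]
      exact fun a b => a (h4 x j b)) h j (List.mem_range.2 hj)
    rw [decide_eq_decide] at this
    by_contra hc
    exact this.2 hc b

end Pool.Agent.Work.MP_4489ea_co
end

-- merged part: Pool.Agent.Work.MP_4489ea_co.Mem
section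
/-!
Membership: perfect Roman graphs are recognised with parallel queries to an NP oracle.
-/

namespace Pool.Agent.Work.MP_4489ea_co

open Pool.Agent.Lib.Poly N68a2faeb

/-- The number of vertices read off a code. -/
def nOf (x : List Bool) : ℕ := (List.range (x.length + 1)).countP fun i => decide (i * i < x.length)

/-- The adjacency bit read off a code. -/
def ad (x : List Bool) (i j : ℕ) : Bool := x.getD (i * nOf x + j) false

/-- The string is the code of a graph. -/
def valid (x : List Bool) : Bool :=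
  decide (nOf x * nOf x = x.length ∧ ∀ i ∈ List.range (nOf x),
    ad x i i = false ∧ ∀ j ∈ List.range (nOf x), ad x i j = ad x j i)

/-- The cost of a vertex. -/
def cstB (x w : List Bool) (i : ℕ) : ℕ :=
  if w.getD i false = true then 2
  else if ((List.range (nOf x)).countP fun j => w.getD j false && ad x i j) = 1 then 0 else 1

/-- The check performed on a graph code, a bound, a flag and a vertex set. -/
def chk (x : List Bool) (k : ℕ) (t : Bool) (w : List Bool) : Bool :=
  decide (((List.range (nOf x)).map (cstB x w)).sum ≤ k) &&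
    (t || decide (∀ i ∈ List.range (nOf x), cstB x w i ≠ 1))

/-- A query. -/
def query (x : List Bool) (t : Bool) (k : ℕ) : List Bool :=
  t :: (x ++ (List.replicate k true ++ List.replicate (2 * x.length - k) false))

/-- The verifier of the oracle language. -/
def ver (z : List Bool × List Bool) : Bool :=
  chk (z.1.tail.take ((z.1.length - 1) / 3))
    ((z.1.tail.drop ((z.1.length - 1) / 3)).countP fun b => b) (z.1.headD false) z.2

theorem pt_nOf : PT nOf := by unfold nOf; fun_prop

theorem pt_ad : PT fun p : List Bool × ℕ × ℕ => ad p.1 p.2.1 p.2.2 := by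
  have := pt_nOf
  unfold ad; fun_prop

@[fun_prop] theorem pt_ad' {α : Type} [Enc α] {x : α → List Bool} {i j : α → ℕ} (hx : PT x)
    (hi : PT i) (hj : PT j) : PT fun a => ad (x a) (i a) (j a) :=
  pt_ad.comp (g := fun a => (x a, i a, j a)) (by fun_prop)

theorem pt_valid : PT valid := by
  have := pt_nOf
  unfold valid; fun_prop

@[fun_prop] theorem pt_cstB {α : Type} [Enc α] {x w : α → List Bool} {i : α → ℕ} (hx : PT x)
    (hw : PT w) (hi : PT i) : PT fun a => cstB (x a) (w a) (i a) := by
  have := pt_nOf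
  unfold cstB; fun_prop

@[fun_prop] theorem pt_chk {α : Type} [Enc α] {x w : α → List Bool} {k : α → ℕ} {t : α → Bool}
    (hx : PT x) (hk : PT k) (ht : PT t) (hw : PT w) :
    PT fun a => chk (x a) (k a) (t a) (w a) := by
  have := pt_nOf
  unfold chk; fun_prop

theorem pt_ver : PT ver := by unfold ver; fun_prop

theorem ver_query (x : List Bool) (t : Bool) (k : ℕ) (hk : k ≤ 2 * x.length) (w : List Bool) :
    ver (query x t k, w) = chk x k t w := by
  have h1 : ((query x t k).length - 1) / 3 = x.length := by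
    simp only [query, List.length_cons, List.length_append, List.length_replicate]
    omega
  unfold ver
  simp only [h1]
  simp [query, List.countP_replicate]

theorem getD_flatMap {ι : Type} (l : List ι) (f : ι → List Bool) (n : ℕ)
    (hf : ∀ a, (f a).length = n) (i j : ℕ) (hi : i < l.length) (hj : j < n) :
    (l.flatMap f).getD (i * n + j) false = (f l[i]).getD j false := by
  induction l generalizing i with
  | nil => simp at hi
  | cons a l ih =>
    rw [List.flatMap_cons]
    cases i with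
    | zero =>
      rw [List.getD_append _ _ _ _ (by rw [hf]; omega)]
      simp
    | succ i =>
      rw [List.getD_append_right _ _ _ _ (by rw [hf, Nat.succ_mul]; omega), hf,
        show (i + 1) * n + j - n = i * n + j by rw [Nat.succ_mul]; omega,
        ih i (by simpa using hi)]
      rfl

section code

variable {n : ℕ} (G : SimpleGraph (Fin n))

theorem length_code : (code G).length = n * n := by
  simp [code, List.length_flatMap]

theorem nOf_eq {x : List Bool} (h : x.length = n * n) : nOf x = n := by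
  have h1 : n ≤ n * n := Nat.le_mul_self n
  obtain ⟨r, hr⟩ : ∃ r, n * n + 1 = n + r := ⟨n * n + 1 - n, by omega⟩
  rw [nOf, h, hr, List.range_add, List.countP_append, List.countP_eq_length.2,
    List.countP_eq_zero.2]
  · simp
  · intro a ha
    obtain ⟨b, -, rfl⟩ := List.mem_map.1 ha
    simp only [decide_eq_true_eq, not_lt]
    exact Nat.mul_le_mul (by omega) (by omega)
  · intro a ha
    have := List.mem_range.1 ha
    simp only [decide_eq_true_eq]
    exact Nat.mul_self_lt_mul_self this

theorem nOf_code : nOf (code G) = n := nOf_eq (length_code G)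

open Classical in
theorem getD_code (i j : Fin n) : (code G).getD (i * n + j) false = decide (G.Adj i j) := by
  rw [code, getD_flatMap _ _ n (by simp) i j (by simp) j.2]
  simp

theorem ad_code (i j : Fin n) : ad (code G) i j = true ↔ G.Adj i j := by
  classical
  rw [ad, nOf_code, getD_code]
  simp

theorem valid_code : valid (code G) = true := by
  simp only [valid, nOf_code, length_code, List.mem_range, decide_eq_true_eq, true_and]
  intro i hi
  refine ⟨?_, fun j hj => ?_⟩
  · have := ad_code G ⟨i, hi⟩ ⟨i, hi⟩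
    simpa using this
  · rw [Bool.eq_iff_iff]
    exact (ad_code G ⟨i, hi⟩ ⟨j, hj⟩).trans (G.adj_comm _ _ |>.trans (ad_code G ⟨j, hj⟩ ⟨i, hi⟩).symm)

/-- The vertex set described by a bit string. -/
def setOfBits (n : ℕ) (w : List Bool) : Finset (Fin n) :=
  Finset.univ.filter fun i => w.getD i false = true

theorem cstB_code (w : List Bool) (i : Fin n) : cstB (code G) w i = cst G (setOfBits n w) i := by
  classical
  have h1 : ((List.range n).countP fun j => w.getD j false && ad (code G) i j) =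
      (Finset.univ.filter fun u => u ∈ setOfBits n w ∧ G.Adj i u).card := by
    rw [← List.map_coe_finRange_eq_range, List.countP_map,
      List.countP_eq_length_filter, ← List.toFinset_card_of_nodup
        ((List.nodup_finRange n).filter _)]
    exact congrArg Finset.card (by ext t; simp [setOfBits, ad_code])
  have h2 : (Finset.univ.filter fun u => u ∈ setOfBits n w ∧ G.Adj i u).card = 1 ↔
      ∃! u, u ∈ setOfBits n w ∧ G.Adj i u := by
    rw [Finset.card_eq_one_iff_existsUnique]
    simp
  have h3 : w.getD i false = true ↔ i ∈ setOfBits n w := by simp [setOfBits]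
  rw [cstB, nOf_code, h1]
  by_cases h4 : i ∈ setOfBits n w
  · rw [cst_mem G h4, if_pos (h3.2 h4)]
  · rw [if_neg (mt h3.1 h4)]
    by_cases h5 : ∃! u, u ∈ setOfBits n w ∧ G.Adj i u
    · rw [cst_good G h4 h5, if_pos (h2.2 h5)]
    · rw [cst_bad G h4 h5, if_neg (mt h2.1 h5)]

theorem chk_code (k : ℕ) (t : Bool) (w : List Bool) : chk (code G) k t w = true ↔
    wt G (setOfBits n w) ≤ k ∧ (t = true ∨ IsPDS G (setOfBits n w)) := by
  have h1 : ((List.range n).map (cstB (code G) w)).sum = wt G (setOfBits n w) := by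
    rw [wt, Fin.sum_univ_def, ← List.map_coe_finRange_eq_range, List.map_map]
    exact congrArg List.sum (List.map_congr_left fun i _ => cstB_code G w i)
  simp only [chk, nOf_code, h1, Bool.and_eq_true, decide_eq_true_eq, Bool.or_eq_true,
    List.mem_range]
  refine and_congr_right fun _ => or_congr_right ⟨fun h v hv => ?_, fun h i hi => ?_⟩
  · by_contra hc
    exact h v v.2 ((cstB_code G w v).trans (cst_bad G hv hc))
  · rw [cstB_code G w ⟨i, hi⟩]
    by_cases hv : ⟨i, hi⟩ ∈ setOfBits n w
    · rw [cst_mem G hv]; omega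
    · rw [cst_good G hv (h _ hv)]; omega

theorem exists_bits (S : Finset (Fin n)) : ∃ w : List Bool, w.length = n ∧ setOfBits n w = S :=
  ⟨List.ofFn fun i => decide (i ∈ S), by simp, by ext i; simp [setOfBits]⟩

end code

theorem exists_code {x : List Bool} (h : valid x = true) :
    ∃ G : SimpleGraph (Fin (nOf x)), x = code G := by
  simp only [valid, List.mem_range, decide_eq_true_eq] at h
  obtain ⟨h1, h2⟩ := h
  let G : SimpleGraph (Fin (nOf x)) :=
    { Adj := fun i j => ad x i j = true
      symm := ⟨fun i j h => ((h2 i i.2).2 j j.2).symm.trans h⟩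
      loopless := ⟨fun i h => by simp [(h2 i i.2).1] at h⟩ }
  refine ⟨G, List.ext_getElem (by rw [length_code, h1]) fun z a1 a2 => ?_⟩
  have hn : 0 < nOf x := by
    rcases Nat.eq_zero_or_pos (nOf x) with h | h
    · rw [h] at h1; omega
    · exact h
  have b1 : z / nOf x < nOf x := (Nat.div_lt_iff_lt_mul hn).2 (by omega)
  have b2 : ad (code G) (z / nOf x) (z % nOf x) = true ↔ ad x (z / nOf x) (z % nOf x) = true :=
    ad_code G ⟨z / nOf x, b1⟩ ⟨z % nOf x, Nat.mod_lt _ hn⟩
  rw [ad, ad, nOf_code, Nat.div_add_mod', List.getD_eq_getElem _ _ a1,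
    List.getD_eq_getElem _ _ a2] at b2
  exact Bool.eq_iff_iff.2 b2.symm

theorem mem_theta2 : PRLang ∈ Theta2 := by
  classical
  let A : DecisionProblem := fun y => decide (∃ w : List Bool, w.length ≤ y.length ∧ ver (y, w) = true)
  let f : List Bool → List (List Bool) := fun x =>
    (List.range (2 * x.length + 1)).map (query x true) ++
      (List.range (2 * x.length + 1)).map (query x false)
  let g : List Bool × List Bool → Bool := fun z => valid z.1 &&
    decide (∀ k ∈ List.range (2 * z.1.length + 1),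
      z.2.getD k false = true → z.2.getD (2 * z.1.length + 1 + k) false = true)
  have pf : PT f := by simp only [f]; unfold query; fun_prop
  have pg : PT g := by
    have := pt_valid
    simp only [g]; fun_prop
  refine ⟨A, mem_np A ver pt_ver (fun n => n) (by fun_prop) (fun x => by simp [A]), f, g,
    pf.tm2 _ _ f (fun a => a) (fun _ => rfl) fun _ => rfl, pg.isPolyTime_verifier, fun x => ?_⟩
  have key : ∀ (n : ℕ) (G : SimpleGraph (Fin n)), x = code G →
      (g (x, (f x).map A) = true ↔ PerfectRoman G) := by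
    intro n G hx
    have hl : x.length = n * n := by rw [hx, length_code]
    have hn : n ≤ x.length := hl ▸ Nat.le_mul_self n
    have hA : ∀ t k, k < 2 * x.length + 1 → (A (query x t k) = true ↔
        ∃ S, wt G S ≤ k ∧ (t = true ∨ IsPDS G S)) := by
      intro t k hk
      simp only [A, decide_eq_true_eq, ver_query x t k (by omega)]
      constructor
      · rintro ⟨w, -, h⟩
        rw [hx] at h
        exact ⟨_, (chk_code G k t w).1 h⟩
      · rintro ⟨S, h⟩
        obtain ⟨w, a1, rfl⟩ := exists_bits S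
        refine ⟨w, by simp [query]; omega, ?_⟩
        rw [hx]
        exact (chk_code G k t w).2 h
    have g1 : ∀ k < 2 * x.length + 1, ((f x).map A).getD k false = A (query x true k) := by
      intro k hk
      simp only [f, List.map_append]
      rw [List.getD_append _ _ _ _ (by simpa using hk)]
      simp [hk]
    have g2 : ∀ k < 2 * x.length + 1,
        ((f x).map A).getD (2 * x.length + 1 + k) false = A (query x false k) := by
      intro k hk
      simp only [f, List.map_append]
      rw [List.getD_append_right _ _ _ _ (by simp)]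
      simp [hk]
    have hv : valid x = true := hx ▸ valid_code G
    simp only [g, hv, Bool.true_and, decide_eq_true_eq, List.mem_range]
    rw [pr_iff]
    constructor
    · intro h
      obtain ⟨S', -, hS'⟩ := Finset.exists_min_image Finset.univ (wt G) Finset.univ_nonempty
      have b1 := wt_le G S'
      rw [Fintype.card_fin] at b1
      have b2 : wt G S' < 2 * x.length + 1 := by omega
      have := h _ b2
      rw [g1 _ b2, g2 _ b2, hA _ _ b2, hA _ _ b2] at this
      obtain ⟨S, c1, c2⟩ := this ⟨S', le_rfl, Or.inl rfl⟩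
      exact ⟨S, c2.resolve_left (by simp), fun S'' => c1.trans (hS' _ (Finset.mem_univ _))⟩
    · rintro ⟨S, h1, h2⟩ k hk
      rw [g1 _ hk, g2 _ hk, hA _ _ hk, hA _ _ hk]
      rintro ⟨S', c1, -⟩
      exact ⟨S, (h2 S').trans c1, Or.inr h1⟩
  rw [Bool.eq_iff_iff, PRLang, decide_eq_true_eq]
  constructor
  · rintro ⟨n, G, h1, h2⟩
    exact (key n G h1).2 h2
  · intro h
    have hv : valid x = true := by
      simp only [g, Bool.and_eq_true] at h
      exact h.1
    obtain ⟨G, hG⟩ := exists_code hv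
    exact ⟨_, G, hG, (key _ G hG).1 h⟩

theorem prLang_code {n : ℕ} (G : SimpleGraph (Fin n)) :
    PRLang (code G) = true ↔ PerfectRoman G := by
  classical
  rw [PRLang, decide_eq_true_eq]
  refine ⟨?_, fun h => ⟨n, G, rfl, h⟩⟩
  rintro ⟨m, H, h1, h2⟩
  obtain rfl : n = m := by rw [← nOf_code G, h1, nOf_code]
  obtain rfl : G = H := by
    ext i j
    rw [← ad_code, h1, ad_code]
  exact h2

end Pool.Agent.Work.MP_4489ea_co
end

-- merged part: Pool.Agent.Work.MP_4489ea_co.Main
section
/-!
Completeness, and the collapse that a characterisation in NP or in coNP would cause.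
-/

namespace Pool.Agent.Work.MP_4489ea_co

open Pool.Agent.Lib.Poly N68a2faeb N793a5b8e

theorem complete : IsCompleteFor Theta2 PRLang := by
  refine ⟨mem_theta2, fun L hL => ?_⟩
  obtain ⟨f, hf, h⟩ := hard false L hL
  refine ⟨f, hf, fun x => ?_⟩
  obtain ⟨n, G, a1, -, -, -, a2⟩ := h x
  rw [Bool.eq_iff_iff, a2, a1, prLang_code]

theorem np_sub {L : DecisionProblem} (hL : L ∈ NP) : L ∈ Theta2 := by
  have pf : PT fun x : List Bool => [x] := by fun_prop
  have pg : PT fun z : List Bool × List Bool => z.2.headD false := by fun_prop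
  exact ⟨L, hL, fun x => [x], fun z => z.2.headD false,
    pf.tm2 _ _ _ (fun a => a) (fun _ => rfl) fun _ => rfl, pg.isPolyTime_verifier, fun x => rfl⟩

theorem conp_sub {L : DecisionProblem} (hL : L ∈ coNP) : L ∈ Theta2 := by
  have pf : PT fun x : List Bool => [x] := by fun_prop
  have pg : PT fun z : List Bool × List Bool => !z.2.headD false := by fun_prop
  refine ⟨Lᶜ, hL, fun x => [x], fun z => !z.2.headD false,
    pf.tm2 _ _ _ (fun a => a) (fun _ => rfl) fun _ => rfl, pg.isPolyTime_verifier, fun x => ?_⟩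
  change L x = !(!L x)
  simp

theorem np_of_red {L L' : DecisionProblem} (h : ManyOneReducible L L') (hL : L' ∈ NP) :
    L ∈ NP := by
  obtain ⟨f, hf, h⟩ := h
  obtain ⟨p, R, hR, hA⟩ := hL
  have pR : PT R := pt_of_tm2 hR R (fun a => a) (fun _ => rfl) fun _ => rfl
  have pf : PT f := pt_of_tm2 hf f (fun a => a) (fun _ => rfl) fun _ => rfl
  obtain ⟨t, ht, hs⟩ := pf.size
  have hp := IsPoly.eval p
  refine mem_np L (fun z => decide (z.2.length ≤ p.eval (f z.1).length) && R (f z.1, z.2))
    (by fun_prop) (fun n => p.eval (t (n * 3))) (by fun_prop) fun x => ?_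
  rw [h, hA]
  simp only [Bool.and_eq_true, decide_eq_true_eq]
  refine ⟨fun ⟨w, a1, a2⟩ => ⟨w, a1.trans (hp.mono ?_), a1, a2⟩, fun ⟨w, _, a⟩ => ⟨w, a⟩⟩
  exact (length_le_sz _).trans ((hs x).trans (ht.mono (sz_list_le x 1 fun _ _ => le_rfl)))

theorem red_compl {L L' : DecisionProblem} (h : ManyOneReducible L L') :
    ManyOneReducible Lᶜ L'ᶜ := by
  obtain ⟨f, hf, h⟩ := h
  exact ⟨f, hf, fun x => congrArg Bool.not (h x)⟩

theorem collapse (h : PRLang ∈ NP ∨ PRLang ∈ coNP) : NP = coNP := by
  have key : ∀ L ∈ NP, L ∈ coNP := by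
    intro L hL
    rcases h with h | h
    · refine np_of_red (complete.2 _ (conp_sub ?_)) h
      change Lᶜᶜ ∈ NP
      rwa [compl_compl]
    · exact np_of_red (red_compl (complete.2 _ (np_sub hL))) h
  ext L
  refine ⟨key L, fun hL => ?_⟩
  have : Lᶜᶜ ∈ NP := key _ hL
  rwa [compl_compl] at this

end Pool.Agent.Work.MP_4489ea_co
end
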